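import Mathlib

set_option autoImplicit false

/-!
# Sets of binary sums with prescribed digit positions
-/

namespace Q77.Sp

open Set Metric

/-- the sum of `2^{-n}` over `n ∈ A` -/
noncomputable def val (A : Set ℕ) : ℝ := ∑' n, A.indicator (fun n => (1/2:ℝ)^n) n

lemma summable_ind (A : Set ℕ) : Summable (A.indicator (fun n => (1/2:ℝ)^n)) :=
  summable_geometric_two.indicator A

lemma val_nonneg (A : Set ℕ) : 0 ≤ val A :=
  tsum_nonneg fun n => Set.indicator_nonneg (fun _ _ => by positivity) n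

lemma val_union {A B : Set ℕ} (h : Disjoint A B) : val (A ∪ B) = val A + val B := by
  unfold val
  rw [← (summable_ind A).tsum_add (summable_ind B), Set.indicator_union_of_disjoint h]

lemma val_tail_le (A : Set ℕ) (m : ℕ) (h : ∀ n ∈ A, m < n) : val A ≤ (1/2)^m := by
  unfold val
  rw [← (summable_ind A).sum_add_tsum_nat_add (m+1)]
  have h0 : ∑ i ∈ Finset.range (m+1), A.indicator (fun n => (1/2:ℝ)^n) i = 0 := by
    apply Finset.sum_eq_zero
    intro i hi
    rw [Finset.mem_range] at hi
    apply Set.indicator_of_notMem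
    intro hiA
    have := h i hiA
    omega
  rw [h0, zero_add]
  have h1 : ∑' i : ℕ, A.indicator (fun n => (1/2:ℝ)^n) (i + (m+1)) ≤
      ∑' i : ℕ, (1/2:ℝ)^i * (1/2)^(m+1) := by
    apply Summable.tsum_le_tsum
    · intro i
      refine (Set.indicator_le_self' (fun _ _ => by positivity) _).trans ?_
      simp only
      rw [pow_add]
    · exact (summable_nat_add_iff (m+1)).2 (summable_ind A)
    · exact summable_geometric_two.mul_right _
  refine h1.trans ?_
  rw [tsum_mul_right, tsum_geometric_two, pow_succ]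
  linarith [show (0:ℝ) ≤ (1/2)^m by positivity]

lemma val_finset (B : Finset ℕ) : val (B : Set ℕ) = ∑ n ∈ B, (1/2:ℝ)^n := by
  unfold val
  rw [tsum_eq_sum (s := B)]
  · apply Finset.sum_congr rfl
    intro n hn
    exact Set.indicator_of_mem (by exact_mod_cast hn) _
  · intro n hn
    exact Set.indicator_of_notMem (by exact_mod_cast hn) _

lemma val_trunc (A : Set ℕ) (m : ℕ) :
    ∃ B : Finset ℕ, (∀ k, k ∈ B ↔ k ∈ A ∧ k ≤ m) ∧ val B ≤ val A ∧ val A ≤ val B + (1/2)^m := by
  classical
  refine ⟨(Finset.Iic m).filter (· ∈ A), ?_, ?_, ?_⟩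
  · intro k; simp [and_comm]
  all_goals
    have h : A = (((Finset.Iic m).filter (· ∈ A) : Finset ℕ) : Set ℕ) ∪ (A ∩ Ioi m) := by
      ext k
      simp only [Finset.coe_filter, Finset.mem_Iic, mem_union, mem_ofPred_eq, mem_inter_iff,
        mem_Ioi]
      constructor
      · intro hk
        rcases le_or_gt k m with h | h
        · exact Or.inl ⟨h, hk⟩
        · exact Or.inr ⟨hk, h⟩
      · rintro (h | h)
        · exact h.2
        · exact h.1
    have hd : Disjoint (((Finset.Iic m).filter (· ∈ A) : Finset ℕ) : Set ℕ) (A ∩ Ioi m) := by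
      rw [Set.disjoint_left]
      intro k hk hk'
      simp only [Finset.coe_filter, Finset.mem_Iic, mem_ofPred_eq] at hk
      have := hk'.2
      rw [mem_Ioi] at this
      omega
    have h2 := val_union hd
    rw [← h] at h2
  · rw [h2]; linarith [val_nonneg (A ∩ Ioi m)]
  · rw [h2]; linarith [val_tail_le (A ∩ Ioi m) m (fun n hn => hn.2)]

/-- finite sums are dyadic rationals -/
lemma val_finset_int (B : Finset ℕ) (m : ℕ) (h : ∀ k ∈ B, k ≤ m) :
    val B * 2^m = ((∑ k ∈ B.image (fun k => m - k), 2^k : ℕ) : ℝ) := by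
  rw [val_finset, Finset.sum_image, Finset.sum_mul]
  · push_cast
    apply Finset.sum_congr rfl
    intro k hk
    have := h k hk
    have h2 : (2:ℝ)^m = 2^(m-k) * 2^k := by rw [← pow_add]; congr 1; omega
    rw [h2, one_div, inv_pow]
    field_simp
  · intro a ha b hb hab
    have h1 := h a ha
    have h2 := h b hb
    simp only at hab
    omega

lemma val_finset_sep {B B' : Finset ℕ} {m : ℕ} (h : ∀ k ∈ B, k ≤ m) (h' : ∀ k ∈ B', k ≤ m)
    (hne : B ≠ B') : (1/2:ℝ)^m ≤ |val B - val B'| := by
  have hN : (∑ k ∈ B.image (fun k => m - k), 2^k : ℕ) ≠ ∑ k ∈ B'.image (fun k => m - k), 2^k := by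
    intro heq
    have h1 := Finset.geomSum_injective (le_refl 2) heq
    apply hne
    have key : ∀ C : Finset ℕ, (∀ k ∈ C, k ≤ m) → C = (C.image (fun k => m - k)).image (fun k => m - k) := by
      intro C hC
      ext k
      simp only [Finset.image_image, Finset.mem_image, Function.comp]
      constructor
      · intro hk
        refine ⟨k, hk, ?_⟩
        have := hC k hk
        omega
      · rintro ⟨j, hj, hjk⟩
        have := hC j hj
        have : j = k := by omega
        exact this ▸ hj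
    rw [key B h, key B' h', h1]
  have h3 : (1:ℝ) ≤ |val B * 2^m - val B' * 2^m| := by
    rw [val_finset_int B m h, val_finset_int B' m h']
    have : ((∑ k ∈ B.image (fun k => m - k), 2^k : ℕ) : ℤ) - (∑ k ∈ B'.image (fun k => m - k), 2^k : ℕ) ≠ 0 := by
      intro h0
      apply hN
      exact_mod_cast (sub_eq_zero.1 h0)
    have h4 := Int.one_le_abs this
    exact_mod_cast h4
  rw [← sub_mul, abs_mul, abs_of_pos (show (0:ℝ) < 2^m by positivity)] at h3
  have h5 : (0:ℝ) < 2^m := by positivity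
  rw [one_div, inv_pow, inv_le_iff_one_le_mul₀ h5]
  exact h3

/-- the set `c + {sums of 2^{-n} over subsets of S}` -/
def piece (c : ℝ) (S : Set ℕ) : Set ℝ := {x | ∃ A ⊆ S, x = c + val A}

open Classical in
/-- number of elements of `S` in `(m, n]` -/
noncomputable def cnt (S : Set ℕ) (m n : ℕ) : ℕ := ((Finset.Ioc m n).filter (· ∈ S)).card

lemma self_mem_piece (c : ℝ) (S : Set ℕ) : c ∈ piece c S :=
  ⟨∅, empty_subset _, by simp [val]⟩

lemma piece_bdd {c : ℝ} {S : Set ℕ} {n : ℕ} (hS : ∀ k ∈ S, n < k) {x : ℝ} (hx : x ∈ piece c S) :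
    c ≤ x ∧ x ≤ c + (1/2)^n := by
  obtain ⟨A, hA, rfl⟩ := hx
  have := val_nonneg A
  have := val_tail_le A n (fun k hk => hS k (hA hk))
  constructor <;> linarith

/-- lower bound: separated points near a point of a piece -/
lemma piece_lower {c : ℝ} {S : Set ℕ} {y : ℝ} (hy : y ∈ piece c S) (m n : ℕ) (hmn : m ≤ n) :
    ∃ T : Finset ℝ, T.card = 2^(cnt S m n) ∧ (∀ x ∈ T, x ∈ piece c S ∧ |x - y| ≤ (1/2)^m) ∧
      ∀ x ∈ T, ∀ z ∈ T, x ≠ z → (1/2)^n ≤ |x - z| := by
  classical
  obtain ⟨A, hA, rfl⟩ := hy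
  obtain ⟨B, hB, hB1, hB2⟩ := val_trunc A m
  set D := (Finset.Ioc m n).filter (· ∈ S) with hD
  set f : Finset ℕ → ℝ := fun C => c + val (B ∪ C : Finset ℕ) with hf
  have hdisj : ∀ C ∈ D.powerset, Disjoint B C := by
    intro C hC
    rw [Finset.mem_powerset] at hC
    rw [Finset.disjoint_left]
    intro k hk hk'
    have h1 := (hB k).1 hk
    have h2 := hC hk'
    rw [hD, Finset.mem_filter, Finset.mem_Ioc] at h2
    omega
  have hle : ∀ C ∈ D.powerset, ∀ k ∈ B ∪ C, k ≤ n := by
    intro C hC k hk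
    rw [Finset.mem_powerset] at hC
    rcases Finset.mem_union.1 hk with h | h
    · have h1 := (hB k).1 h
      omega
    · have h2 := hC h
      rw [hD, Finset.mem_filter, Finset.mem_Ioc] at h2
      omega
  have hval : ∀ C ∈ D.powerset, val B ≤ val (B ∪ C : Finset ℕ) ∧
      val (B ∪ C : Finset ℕ) ≤ val B + (1/2)^m := by
    intro C hC
    have h1 : val (B ∪ C : Finset ℕ) = val B + val C := by
      rw [Finset.coe_union]
      exact val_union (by exact_mod_cast hdisj C hC)
    rw [Finset.mem_powerset] at hC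
    have h2 := val_nonneg (C : Set ℕ)
    have h3 := val_tail_le (C : Set ℕ) m (by
      intro k hk
      have h2 := hC hk
      rw [hD, Finset.mem_filter, Finset.mem_Ioc] at h2
      exact h2.1.1)
    constructor <;> linarith
  have hsep : ∀ C ∈ D.powerset, ∀ C' ∈ D.powerset, C ≠ C' → (1/2)^n ≤ |f C - f C'| := by
    intro C hC C' hC' hne
    have h1 : f C - f C' = val (B ∪ C : Finset ℕ) - val (B ∪ C' : Finset ℕ) := by
      simp only [hf]; ring
    rw [h1]
    apply val_finset_sep (hle C hC) (hle C' hC')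
    intro heq
    apply hne
    have h2 : ∀ C ∈ D.powerset, C = (B ∪ C) \ B := by
      intro C hC
      rw [Finset.union_sdiff_cancel_left (hdisj C hC)]
    rw [h2 C hC, h2 C' hC', heq]
  have hinj : Set.InjOn f (D.powerset : Set (Finset ℕ)) := by
    intro C hC C' hC' heq
    by_contra hne
    have h1 := hsep C (by exact_mod_cast hC) C' (by exact_mod_cast hC') hne
    rw [heq, sub_self, abs_zero] at h1
    have : (0:ℝ) < (1/2)^n := by positivity
    linarith
  refine ⟨D.powerset.image f, ?_, ?_, ?_⟩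
  · rw [Finset.card_image_of_injOn hinj, Finset.card_powerset]
    rfl
  · intro x hx
    obtain ⟨C, hC, rfl⟩ := Finset.mem_image.1 hx
    refine ⟨⟨(B ∪ C : Finset ℕ), ?_, rfl⟩, ?_⟩
    · intro k hk
      rw [Finset.mem_coe] at hk
      rcases Finset.mem_union.1 hk with h | h
      · exact hA ((hB k).1 h).1
      · have h2 := (Finset.mem_powerset.1 hC) h
        rw [hD, Finset.mem_filter] at h2
        exact h2.2
    · have h1 := hval C hC
      rw [abs_le]
      simp only [hf]
      constructor <;> linarith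
  · intro x hx z hz hxz
    obtain ⟨C, hC, rfl⟩ := Finset.mem_image.1 hx
    obtain ⟨C', hC', rfl⟩ := Finset.mem_image.1 hz
    exact hsep C hC C' hC' (fun h => hxz (by rw [h]))

/-- upper bound: covering the part of a piece in an interval -/
lemma piece_upper (c : ℝ) (S : Set ℕ) (y : ℝ) (m n : ℕ) (hmn : m ≤ n) :
    ∃ T : Finset ℝ, T.card ≤ 4 * 2^(cnt S m n) ∧
      ∀ x ∈ piece c S, |x - y| ≤ (1/2)^m → ∃ t ∈ T, |x - t| ≤ (1/2)^n := by
  classical
  set D := (Finset.Ioc m n).filter (· ∈ S) with hD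
  set K : Finset ℤ := Finset.Icc (⌈2^m * (y - c) - 2⌉) (⌊2^m * (y - c) + 1⌋) with hK
  refine ⟨(K ×ˢ D.powerset).image (fun p => c + (p.1 : ℝ) * (1/2)^m + val (p.2 : Set ℕ)), ?_, ?_⟩
  · refine Finset.card_image_le.trans ?_
    rw [Finset.card_product, Finset.card_powerset]
    apply Nat.mul_le_mul _ (le_of_eq rfl)
    rw [hK, Int.card_Icc]
    have h1 := Int.le_ceil (2^m * (y - c) - 2)
    have h2 := Int.floor_le (2^m * (y - c) + 1)
    have h3 : ((⌊2^m * (y - c) + 1⌋ + 1 - ⌈2^m * (y - c) - 2⌉ : ℤ) : ℝ) ≤ (4 : ℤ) := by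
      push_cast
      linarith
    have h4 : (⌊2^m * (y - c) + 1⌋ + 1 - ⌈2^m * (y - c) - 2⌉ : ℤ) ≤ 4 := by exact_mod_cast h3
    omega
  · rintro x ⟨A, hA, rfl⟩ hxy
    obtain ⟨B, hB, hB1, hB2⟩ := val_trunc A m
    obtain ⟨B', hB', hB'1, hB'2⟩ := val_trunc A n
    set k : ℤ := ((∑ k ∈ B.image (fun k => m - k), 2^k : ℕ) : ℤ) with hk
    have hkv : val B * 2^m = (k : ℝ) := by
      rw [val_finset_int B m (fun k hk => ((hB k).1 hk).2), hk]
      push_cast
      rfl
    have hkv' : val B = (k : ℝ) * (1/2)^m := by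
      rw [← hkv, mul_assoc, ← mul_pow]; norm_num
    have h2m : (0:ℝ) < 2^m := by positivity
    have hmm : (2:ℝ)^m * (1/2)^m = 1 := by rw [← mul_pow]; norm_num
    have hsplit : val B' = val B + val ((B' \ B : Finset ℕ) : Set ℕ) := by
      rw [← val_union]
      · congr 1
        rw [← Finset.coe_union]
        congr 1
        rw [Finset.union_sdiff_of_subset]
        intro k hk
        have := (hB k).1 hk
        exact (hB' k).2 ⟨this.1, this.2.trans hmn⟩
      · rw [Finset.disjoint_coe]
        exact Finset.disjoint_sdiff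
    refine ⟨c + (k : ℝ) * (1/2)^m + val ((B' \ B : Finset ℕ) : Set ℕ), ?_, ?_⟩
    · apply Finset.mem_image.2
      refine ⟨(k, B' \ B), ?_, rfl⟩
      rw [Finset.mem_product]
      constructor
      · rw [hK, Finset.mem_Icc]
        rw [abs_le] at hxy
        constructor
        · rw [Int.ceil_le, ← hkv]
          nlinarith
        · rw [Int.le_floor, ← hkv]
          nlinarith
      · rw [Finset.mem_powerset]
        intro j hj
        rw [Finset.mem_sdiff] at hj
        have h1 := (hB' j).1 hj.1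
        rw [hD, Finset.mem_filter, Finset.mem_Ioc]
        refine ⟨⟨?_, h1.2⟩, hA h1.1⟩
        by_contra hcon
        exact hj.2 ((hB j).2 ⟨h1.1, not_lt.1 hcon⟩)
    · rw [← hkv', abs_le]
      constructor <;> linarith

end Q77.Sp
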