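import Mathlib
import Pool.Agent.Q77.Sp.Digits

set_option autoImplicit false

/-!
# The one-dimensional set with prescribed growth
-/

namespace Q77.Sp

open Set Metric

/-- positions at which the integer part of `g` jumps -/
def stair (g : ℕ → ℝ) (n0 : ℕ) : Set ℕ := {n | n0 < n ∧ ⌊g (n-1)⌋ < ⌊g n⌋}

lemma cnt_succ (S : Set ℕ) {m n : ℕ} (hn : n + 1 ∉ S) :
    cnt S m (n+1) = cnt S m n := by
  classical
  unfold cnt
  congr 1
  ext k
  simp only [Finset.mem_filter, Finset.mem_Ioc]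
  constructor
  · rintro ⟨⟨h1, h2⟩, h3⟩
    refine ⟨⟨h1, ?_⟩, h3⟩
    rcases Nat.lt_or_ge k (n+1) with h4 | h4
    · omega
    · exact absurd ((show k = n+1 by omega) ▸ h3) hn
  · rintro ⟨⟨h1, h2⟩, h3⟩
    exact ⟨⟨h1, by omega⟩, h3⟩

lemma cnt_succ' (S : Set ℕ) {m n : ℕ} (h : m ≤ n) (hn : n + 1 ∈ S) :
    cnt S m (n+1) = cnt S m n + 1 := by
  classical
  unfold cnt
  have : (Finset.Ioc m (n+1)).filter (· ∈ S) = insert (n+1) ((Finset.Ioc m n).filter (· ∈ S)) := by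
    ext k
    simp only [Finset.mem_filter, Finset.mem_Ioc, Finset.mem_insert]
    constructor
    · rintro ⟨⟨h1, h2⟩, h3⟩
      rcases Nat.lt_or_ge k (n+1) with h4 | h4
      · exact Or.inr ⟨⟨h1, by omega⟩, h3⟩
      · exact Or.inl (by omega)
    · rintro (rfl | ⟨⟨h1, h2⟩, h3⟩)
      · exact ⟨⟨by omega, le_refl _⟩, hn⟩
      · exact ⟨⟨h1, by omega⟩, h3⟩
  rw [this, Finset.card_insert_of_notMem]
  simp

lemma cnt_stair (g : ℕ → ℝ) (n0 : ℕ) (hg : ∀ n ≥ n0, g n ≤ g (n+1) ∧ g (n+1) ≤ g n + 1)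
    {m n : ℕ} (hm : n0 ≤ m) (hmn : m ≤ n) : (cnt (stair g n0) m n : ℤ) = ⌊g n⌋ - ⌊g m⌋ := by
  induction n, hmn using Nat.le_induction with
  | base => simp [cnt]
  | succ n hn ih =>
    obtain ⟨h1, h2⟩ := hg n (hm.trans hn)
    have h3 : ⌊g n⌋ ≤ ⌊g (n+1)⌋ := Int.floor_le_floor h1
    have h4 : ⌊g (n+1)⌋ ≤ ⌊g n⌋ + 1 := by
      have := Int.floor_le_floor h2
      rwa [Int.floor_add_one] at this
    by_cases hS : n + 1 ∈ stair g n0
    · rw [cnt_succ' _ hn hS]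
      have h5 : ⌊g n⌋ < ⌊g (n+1)⌋ := by
        have := hS.2
        simpa using this
      push_cast
      omega
    · rw [cnt_succ _ hS]
      have h5 : ¬ ⌊g n⌋ < ⌊g (n+1)⌋ := by
        intro h
        apply hS
        refine ⟨by omega, ?_⟩
        simpa using h
      omega

lemma cnt_stair_le (g : ℕ → ℝ) (n0 : ℕ) (hg : ∀ n ≥ n0, g n ≤ g (n+1) ∧ g (n+1) ≤ g n + 1)
    {m n : ℕ} (hm : n0 ≤ m) (hmn : m ≤ n) : (cnt (stair g n0) m n : ℝ) ≤ g n - g m + 1 := by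
  have h := cnt_stair g n0 hg hm hmn
  have h1 : (cnt (stair g n0) m n : ℝ) = (⌊g n⌋ : ℝ) - ⌊g m⌋ := by exact_mod_cast h
  rw [h1]
  linarith [Int.floor_le (g n), Int.lt_floor_add_one (g m)]

lemma le_cnt_stair (g : ℕ → ℝ) (n0 : ℕ) (hg : ∀ n ≥ n0, g n ≤ g (n+1) ∧ g (n+1) ≤ g n + 1)
    {m n : ℕ} (hm : n0 ≤ m) (hmn : m ≤ n) : g n - g m - 1 ≤ (cnt (stair g n0) m n : ℝ) := by
  have h := cnt_stair g n0 hg hm hmn
  have h1 : (cnt (stair g n0) m n : ℝ) = (⌊g n⌋ : ℝ) - ⌊g m⌋ := by exact_mod_cast h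
  rw [h1]
  linarith [Int.floor_le (g m), Int.lt_floor_add_one (g n)]

lemma cnt_stair_small (g : ℕ → ℝ) (n0 : ℕ) {m n : ℕ} (hm : m ≤ n0) (hn : n0 ≤ n) :
    cnt (stair g n0) m n = cnt (stair g n0) n0 n := by
  classical
  unfold cnt
  congr 1
  ext k
  simp only [Finset.mem_filter, Finset.mem_Ioc]
  constructor
  · rintro ⟨⟨h1, h2⟩, h3⟩
    exact ⟨⟨h3.1, h2⟩, h3⟩
  · rintro ⟨⟨h1, h2⟩, h3⟩
    exact ⟨⟨by omega, h2⟩, h3⟩

/-- The conditions on the pair of normalised spectra (with ambient dimension `D`). -/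
structure JP (D : ℝ) (φL φA : ℝ → ℝ) : Prop where
  nonneg : ∀ θ ∈ Ioc (0:ℝ) 1, 0 ≤ φL θ
  le : ∀ θ ∈ Ioc (0:ℝ) 1, φA θ ≤ D * (1 - θ)
  LL : ∀ l ∈ Ioc (0:ℝ) 1, ∀ θ ∈ Ioc (0:ℝ) 1, φL θ ≤ φL (l * θ) - θ * φL l
  LA : ∀ l ∈ Ioc (0:ℝ) 1, ∀ θ ∈ Ioc (0:ℝ) 1, φL (l * θ) - θ * φL l ≤ φA θ
  AL : ∀ l ∈ Ioc (0:ℝ) 1, ∀ θ ∈ Ioc (0:ℝ) 1, φL θ ≤ φA (l * θ) - θ * φA l
  AA : ∀ l ∈ Ioc (0:ℝ) 1, ∀ θ ∈ Ioc (0:ℝ) 1, φA (l * θ) - θ * φA l ≤ φA θ
  anti : ∀ l ∈ Ioc (0:ℝ) 1, ∀ θ ∈ Ioc (0:ℝ) 1, φA θ ≤ φA (l * θ)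

variable {φL φA : ℝ → ℝ}

lemma one_mem : (1:ℝ) ∈ Ioc (0:ℝ) 1 := ⟨one_pos, le_refl _⟩

namespace JP

variable {D : ℝ} (h : JP D φL φA)
include h

lemma L1 : φL 1 = 0 := by
  have h1 := h.LL 1 one_mem 1 one_mem
  have h2 := h.nonneg 1 one_mem
  rw [mul_one, one_mul] at h1
  linarith

lemma L_le_A {θ : ℝ} (hθ : θ ∈ Ioc (0:ℝ) 1) : φL θ ≤ φA θ := by
  have h1 := h.LA 1 one_mem θ hθ
  rw [one_mul, h.L1] at h1
  linarith

lemma A1 : φA 1 = 0 := by
  have h1 := h.le 1 one_mem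
  have h2 := h.L_le_A one_mem
  rw [h.L1] at h2
  rw [sub_self, mul_zero] at h1
  linarith

lemma antiL {a b : ℝ} (ha : 0 < a) (hab : a ≤ b) (hb : b ≤ 1) : φL b ≤ φL a := by
  have hb0 : 0 < b := ha.trans_le hab
  have h1 := h.LL (a/b) ⟨by positivity, by rw [div_le_one hb0]; exact hab⟩ b ⟨hb0, hb⟩
  rw [div_mul_cancel₀ _ hb0.ne'] at h1
  have h2 := h.nonneg (a/b) ⟨by positivity, by rw [div_le_one hb0]; exact hab⟩
  have h3 : 0 ≤ b * φL (a/b) := by positivity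
  linarith

lemma antiA {a b : ℝ} (ha : 0 < a) (hab : a ≤ b) (hb : b ≤ 1) : φA b ≤ φA a := by
  have hb0 : 0 < b := ha.trans_le hab
  have h1 := h.anti (a/b) ⟨by positivity, by rw [div_le_one hb0]; exact hab⟩ b ⟨hb0, hb⟩
  rwa [div_mul_cancel₀ _ hb0.ne'] at h1

end JP

/-- Functions which are admissible as growth of a piece. -/
structure Gr (φL φA φ : ℝ → ℝ) : Prop where
  lo : ∀ l ∈ Ioc (0:ℝ) 1, ∀ θ ∈ Ioc (0:ℝ) 1, φL θ ≤ φ (l * θ) - θ * φ l
  hi : ∀ l ∈ Ioc (0:ℝ) 1, ∀ θ ∈ Ioc (0:ℝ) 1, φ (l * θ) - θ * φ l ≤ φA θ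
  one : φ 1 = 0
  le : ∀ θ ∈ Ioc (0:ℝ) 1, φ θ ≤ φA θ
  ge : ∀ θ ∈ Ioc (0:ℝ) 1, φL θ ≤ φ θ

lemma JP.grL {D : ℝ} (h : JP D φL φA) : Gr φL φA φL :=
  ⟨h.LL, h.LA, h.L1, fun _ hθ => h.L_le_A hθ, fun _ _ => le_refl _⟩

lemma JP.grA {D : ℝ} (h : JP D φL φA) : Gr φL φA φA :=
  ⟨h.AL, h.AA, h.A1, fun _ _ => le_refl _, fun _ hθ => h.L_le_A hθ⟩

/-- growth function started at level `s` -/
noncomputable def gs (φ : ℝ → ℝ) (s : ℕ) (n : ℕ) : ℝ := n * φ (s / n)

lemma gs_self {φ : ℝ → ℝ} (hφ : φ 1 = 0) {s : ℕ} (hs : 1 ≤ s) : gs φ s s = 0 := by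
  unfold gs
  have : (s:ℝ) ≠ 0 := by positivity
  rw [div_self this, hφ, mul_zero]

lemma div_mem {m n : ℕ} (hm : 1 ≤ m) (hmn : m ≤ n) : (m:ℝ)/n ∈ Ioc (0:ℝ) 1 := by
  have h1 : (0:ℝ) < m := by exact_mod_cast hm
  have h2 : (0:ℝ) < n := by exact_mod_cast (lt_of_lt_of_le hm hmn)
  refine ⟨by positivity, ?_⟩
  rw [div_le_one h2]
  exact_mod_cast hmn

lemma gs_inc {φ : ℝ → ℝ} (hφ : Gr φL φA φ) {s m n : ℕ} (hs : 1 ≤ s) (hsm : s ≤ m) (hmn : m ≤ n) :
    n * φL (m/n) ≤ gs φ s n - gs φ s m ∧ gs φ s n - gs φ s m ≤ n * φA (m/n) := by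
  have hm : 1 ≤ m := hs.trans hsm
  have hn : 1 ≤ n := hm.trans hmn
  have hm0 : (0:ℝ) < m := by exact_mod_cast hm
  have hn0 : (0:ℝ) < n := by exact_mod_cast hn
  have h1 := hφ.lo _ (div_mem hs hsm) _ (div_mem hm hmn)
  have h2 := hφ.hi _ (div_mem hs hsm) _ (div_mem hm hmn)
  have h3 : (s:ℝ)/m * (m/n) = s/n := by field_simp
  rw [h3] at h1 h2
  have h4 : gs φ s n - gs φ s m = n * (φ (s/n) - m/n * φ (s/m)) := by
    unfold gs
    field_simp
  rw [h4]
  exact ⟨by gcongr, by gcongr⟩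

lemma gs_step {φ : ℝ → ℝ} (h : JP 1 φL φA) (hφ : Gr φL φA φ) {s n : ℕ} (hs : 1 ≤ s) (hsn : s ≤ n) :
    gs φ s n ≤ gs φ s (n+1) ∧ gs φ s (n+1) ≤ gs φ s n + 1 := by
  have hn : 1 ≤ n := hs.trans hsn
  obtain ⟨h1, h2⟩ := gs_inc hφ hs hsn (Nat.le_succ n)
  have h3 := h.nonneg _ (div_mem hn (Nat.le_succ n))
  have h4 := h.le _ (div_mem hn (Nat.le_succ n))
  have hn1 : (0:ℝ) < ((n+1 : ℕ) : ℝ) := by positivity
  have h5 : ((n+1 : ℕ):ℝ) * φA ((n:ℝ)/((n+1 : ℕ):ℝ)) ≤ 1 := by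
    calc ((n+1 : ℕ):ℝ) * φA ((n:ℝ)/((n+1 : ℕ):ℝ)) ≤ ((n+1 : ℕ):ℝ) * (1 * (1 - (n:ℝ)/((n+1 : ℕ):ℝ))) := by
          gcongr
      _ = 1 := by
          rw [one_mul, mul_sub, mul_one, mul_div_cancel₀ _ hn1.ne']
          push_cast
          ring
  constructor
  · have : 0 ≤ ((n+1 : ℕ):ℝ) * φL ((n:ℝ)/((n+1 : ℕ):ℝ)) := by positivity
    simp only [Nat.succ_eq_add_one] at h1
    linarith
  · simp only [Nat.succ_eq_add_one] at h2
    linarith

/-- the supremum of `φL` -/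
noncomputable def kap (φL : ℝ → ℝ) : ℝ := sSup (φL '' Ioc (0:ℝ) 1)

lemma JP.bdd {D : ℝ} (hD : 0 ≤ D) (h : JP D φL φA) : BddAbove (φL '' Ioc (0:ℝ) 1) := by
  refine ⟨D, ?_⟩
  rintro x ⟨θ, hθ, rfl⟩
  have h1 := h.L_le_A hθ
  have h2 := h.le θ hθ
  nlinarith [hθ.1]

lemma JP.le_kap {D : ℝ} (hD : 0 ≤ D) (h : JP D φL φA) {θ : ℝ} (hθ : θ ∈ Ioc (0:ℝ) 1) :
    φL θ ≤ kap φL := le_csSup (h.bdd hD) ⟨θ, hθ, rfl⟩

lemma JP.kap_lo {D : ℝ} (hD : 0 ≤ D) (h : JP D φL φA) {θ : ℝ} (hθ : θ ∈ Ioc (0:ℝ) 1) :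
    φL θ ≤ kap φL * (1 - θ) := by
  have h1 : kap φL ≤ (kap φL - φL θ)/θ := by
    apply csSup_le (⟨φL 1, 1, one_mem, rfl⟩ : (φL '' Ioc (0:ℝ) 1).Nonempty)
    rintro x ⟨l, hl, rfl⟩
    rw [le_div_iff₀ hθ.1]
    have h2 := h.LL l hl θ hθ
    have h3 := h.le_kap hD (θ := l * θ) ⟨mul_pos hl.1 hθ.1, mul_le_one₀ hl.2 hθ.1.le hθ.2⟩
    linarith
  rw [le_div_iff₀ hθ.1] at h1
  linarith

lemma JP.kap_hi {D : ℝ} (hD : 0 ≤ D) (h : JP D φL φA) {θ : ℝ} (hθ : θ ∈ Ioc (0:ℝ) 1) :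
    kap φL * (1 - θ) ≤ φA θ := by
  have h1 : kap φL ≤ φA θ + θ * kap φL := by
    apply csSup_le (⟨φL 1, 1, one_mem, rfl⟩ : (φL '' Ioc (0:ℝ) 1).Nonempty)
    rintro x ⟨l, hl, rfl⟩
    have h2 := h.LA l hl θ hθ
    have h3 := h.le_kap hD hl
    have h4 : φL l ≤ φL (l * θ) :=
      h.antiL (mul_pos hl.1 hθ.1) (mul_le_of_le_one_right hl.1.le hθ.2) hl.2
    have h5 : θ * φL l ≤ θ * kap φL := by
      have := hθ.1.le
      gcongr
    linarith
  linarith

lemma JP.kap_nonneg {D : ℝ} (hD : 0 ≤ D) (h : JP D φL φA) : 0 ≤ kap φL :=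
  (h.nonneg 1 one_mem).trans (h.le_kap hD one_mem)

lemma JP.kap_le_one (h : JP 1 φL φA) : kap φL ≤ 1 := by
  apply csSup_le (⟨φL 1, 1, one_mem, rfl⟩ : (φL '' Ioc (0:ℝ) 1).Nonempty)
  rintro x ⟨θ, hθ, rfl⟩
  have h1 := h.L_le_A hθ
  have h2 := h.le θ hθ
  have := hθ.1
  linarith

/-- the main part -/
noncomputable def SM (φL : ℝ → ℝ) : Set ℕ := stair (fun n => kap φL * n) 0

/-- the growth type of the `s`-th piece -/
noncomputable def ph (φL φA : ℝ → ℝ) (s : ℕ) : ℝ → ℝ := if Even s then φL else φA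

/-- the positions of the `s`-th piece -/
noncomputable def SP (φL φA : ℝ → ℝ) (s : ℕ) : Set ℕ := stair (gs (ph φL φA s) s) (s+1)

/-- the base point of the `s`-th piece -/
noncomputable def bp (s : ℕ) : ℝ := -3 * (1/2)^s

/-- the one-dimensional set -/
noncomputable def EE (φL φA : ℝ → ℝ) : Set ℝ :=
  piece 0 (SM φL) ∪ ⋃ s ∈ Ici 1, piece (bp s) (SP φL φA s)

lemma mem_EE {x : ℝ} : x ∈ EE φL φA ↔
    x ∈ piece 0 (SM φL) ∨ ∃ s, 1 ≤ s ∧ x ∈ piece (bp s) (SP φL φA s) := by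
  simp [EE]

lemma JP.gr_ph {D : ℝ} (h : JP D φL φA) (s : ℕ) : Gr φL φA (ph φL φA s) := by
  unfold ph
  split_ifs
  · exact h.grL
  · exact h.grA

lemma pM_bdd {x : ℝ} (hx : x ∈ piece 0 (SM φL)) : 0 ≤ x ∧ x ≤ 1 := by
  have := piece_bdd (n := 0) (fun k hk => hk.1) hx
  simpa using this

lemma pP_bdd {s : ℕ} {x : ℝ} (hx : x ∈ piece (bp s) (SP φL φA s)) :
    -3 * (1/2:ℝ)^s ≤ x ∧ x ≤ -(5/2) * (1/2:ℝ)^s := by
  obtain ⟨h1, h2⟩ := piece_bdd (n := s+1) (fun k hk => hk.1) hx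
  unfold bp at h1 h2
  refine ⟨h1, h2.trans ?_⟩
  rw [pow_succ]
  linarith

/-- isolation of the pieces -/
lemma isol {s m : ℕ} (hsm : s < m) {x z : ℝ} (hx : x ∈ piece (bp s) (SP φL φA s))
    (hz : z ∈ EE φL φA) (hxz : |z - x| ≤ (1/2)^m) : z ∈ piece (bp s) (SP φL φA s) := by
  obtain ⟨h1, h2⟩ := pP_bdd hx
  have hs : (0:ℝ) < (1/2)^s := by positivity
  have hm : (1/2:ℝ)^m ≤ (1/2)^s * (1/2) := by
    rw [← pow_succ]
    exact pow_le_pow_of_le_one (by norm_num) (by norm_num) hsm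
  rw [abs_le] at hxz
  rcases mem_EE.1 hz with h | ⟨s', hs', h⟩
  · have h3 := (pM_bdd h).1
    linarith
  · obtain ⟨h3, h4⟩ := pP_bdd h
    rcases lt_trichotomy s s' with hlt | heq | hlt
    · have h5 : (1/2:ℝ)^s' ≤ (1/2)^s * (1/2) := by
        rw [← pow_succ]
        exact pow_le_pow_of_le_one (by norm_num) (by norm_num) hlt
      linarith
    · exact heq ▸ h
    · have h5 : (1/2:ℝ)^s ≤ (1/2)^s' * (1/2) := by
        rw [← pow_succ]
        exact pow_le_pow_of_le_one (by norm_num) (by norm_num) hlt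
      linarith

lemma kstep (h : JP 1 φL φA) : ∀ n ≥ 0, (fun n : ℕ => kap φL * n) n ≤ (fun n : ℕ => kap φL * n) (n+1) ∧
    (fun n : ℕ => kap φL * n) (n+1) ≤ (fun n : ℕ => kap φL * n) n + 1 := by
  intro n _
  have h1 := h.kap_nonneg zero_le_one
  have h2 := h.kap_le_one
  simp only
  push_cast
  constructor <;> nlinarith

lemma pstep (h : JP 1 φL φA) {s : ℕ} (hs : 1 ≤ s) : ∀ n ≥ s + 1,
    gs (ph φL φA s) s n ≤ gs (ph φL φA s) s (n+1) ∧
      gs (ph φL φA s) s (n+1) ≤ gs (ph φL φA s) s n + 1 :=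
  fun n hn => gs_step h (h.gr_ph s) hs (by omega)

lemma rpow_cast_le {k : ℕ} {x : ℝ} (h : x ≤ k) : (2:ℝ)^x ≤ ((2^k : ℕ) : ℝ) := by
  push_cast
  rw [← Real.rpow_natCast]
  exact Real.rpow_le_rpow_of_exponent_le (by norm_num) h

lemma le_rpow_cast {k : ℕ} {x : ℝ} (h : (k:ℝ) ≤ x) : ((2^k : ℕ) : ℝ) ≤ (2:ℝ)^x := by
  push_cast
  rw [← Real.rpow_natCast]
  exact Real.rpow_le_rpow_of_exponent_le (by norm_num) h

/-- lower bound for all balls -/
lemma EE_lower (h : JP 1 φL φA) {x : ℝ} (hx : x ∈ EE φL φA) {m n : ℕ} (hm : 1 ≤ m) (hmn : m ≤ n) :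
    ∃ T : Finset ℝ, (∀ t ∈ T, t ∈ EE φL φA ∧ |t - x| ≤ (1/2)^m) ∧
      (∀ t ∈ T, ∀ z ∈ T, t ≠ z → (1/2)^n ≤ |t - z|) ∧
      (2:ℝ)^(n * φL (m/n) - 3 - n/m) ≤ T.card := by
  have hm0 : (0:ℝ) < m := by exact_mod_cast hm
  have hn0 : (0:ℝ) < n := by exact_mod_cast (hm.trans hmn)
  have hnm : 0 ≤ (n:ℝ)/m := by positivity
  have hθ := div_mem hm hmn
  have hk0 := h.kap_nonneg zero_le_one
  have hk1 := h.kap_le_one
  have hkl : n * φL (m/n) ≤ kap φL * (n - m) := by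
    calc n * φL (m/n) ≤ n * (kap φL * (1 - m/n)) := by
          gcongr; exact h.kap_lo zero_le_one hθ
      _ = kap φL * (n - m) := by field_simp
  rcases mem_EE.1 hx with hx' | ⟨s, hs, hx'⟩
  · obtain ⟨T, hT1, hT2, hT3⟩ := piece_lower hx' m n hmn
    refine ⟨T, fun t ht => ⟨mem_EE.2 (Or.inl (hT2 t ht).1), (hT2 t ht).2⟩, hT3, ?_⟩
    rw [hT1]
    apply rpow_cast_le
    have := le_cnt_stair _ 0 (kstep h) (Nat.zero_le m) hmn
    unfold SM
    nlinarith
  · have hinj : (∀ t, t ∈ piece (bp s) (SP φL φA s) → t ∈ EE φL φA) :=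
      fun t ht => mem_EE.2 (Or.inr ⟨s, hs, ht⟩)
    rcases lt_or_ge s m with hsm | hsm
    · -- the ball sees only the piece
      obtain ⟨T, hT1, hT2, hT3⟩ := piece_lower hx' m n hmn
      refine ⟨T, fun t ht => ⟨hinj t (hT2 t ht).1, (hT2 t ht).2⟩, hT3, ?_⟩
      rw [hT1]
      apply rpow_cast_le
      have h1 := le_cnt_stair _ (s+1) (pstep h hs) (show s+1 ≤ m by omega) hmn
      have h2 := (gs_inc (h.gr_ph s) hs hsm.le hmn).1
      unfold SP
      linarith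
    · rcases lt_or_ge (m+1) s with hms | hms
      · -- the ball contains a part of the main piece
        have h0 : (0:ℝ) ∈ piece 0 (SM φL) := self_mem_piece _ _
        have hxb := pP_bdd hx'
        have hs4 : (1/2:ℝ)^s ≤ (1/2)^m * (1/4) := by
          have : (1/2:ℝ)^s ≤ (1/2)^(m+2) := pow_le_pow_of_le_one (by norm_num) (by norm_num) hms
          rw [pow_add] at this
          linarith
        have hs0 : (0:ℝ) < (1/2)^s := by positivity
        rcases le_or_gt (m+2) n with hmn2 | hmn2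
        · obtain ⟨T, hT1, hT2, hT3⟩ := piece_lower h0 (m+2) n hmn2
          refine ⟨T, fun t ht => ⟨mem_EE.2 (Or.inl (hT2 t ht).1), ?_⟩, hT3, ?_⟩
          · have h3 := (hT2 t ht).2
            rw [sub_zero, pow_add, abs_le] at h3
            rw [abs_le]
            constructor <;> linarith [h3.1, h3.2, hxb.1, hxb.2]
          · rw [hT1]
            apply rpow_cast_le
            have := le_cnt_stair _ 0 (kstep h) (Nat.zero_le (m+2)) hmn2
            push_cast at this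
            unfold SM
            linarith
        · refine ⟨{0}, ?_, ?_, ?_⟩
          · intro t ht
            rw [Finset.mem_singleton] at ht
            subst ht
            refine ⟨mem_EE.2 (Or.inl h0), ?_⟩
            rw [abs_le]
            constructor <;> linarith [hxb.1, hxb.2]
          · intro t ht z hz hne
            rw [Finset.mem_singleton] at ht hz
            exact absurd (ht.trans hz.symm) hne
          · rw [Finset.card_singleton]
            push_cast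
            apply Real.rpow_le_one_of_one_le_of_nonpos (by norm_num)
            have h4 : (n:ℝ) ≤ m + 2 := by exact_mod_cast (show n ≤ m + 2 by omega)
            have h5 : kap φL * (n - m) ≤ 1 * 2 := by
              have h6 : (0:ℝ) ≤ n - m := by
                have : (m:ℝ) ≤ n := by exact_mod_cast hmn
                linarith
              apply mul_le_mul hk1 (by linarith) h6 zero_le_one
            linarith
      · -- the ball contains the whole piece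
        rcases lt_or_ge n (s+1) with hns | hns
        · refine ⟨{x}, ?_, ?_, ?_⟩
          · intro t ht
            rw [Finset.mem_singleton] at ht
            subst ht
            refine ⟨hx, ?_⟩
            rw [sub_self, abs_zero]
            positivity
          · intro t ht z hz hne
            rw [Finset.mem_singleton] at ht hz
            exact absurd (ht.trans hz.symm) hne
          · rw [Finset.card_singleton]
            push_cast
            apply Real.rpow_le_one_of_one_le_of_nonpos (by norm_num)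
            have h4 : (n:ℝ) ≤ m + 2 := by exact_mod_cast (show n ≤ m + 2 by omega)
            have h5 : kap φL * (n - m) ≤ 1 * 2 := by
              have h6 : (0:ℝ) ≤ n - m := by
                have : (m:ℝ) ≤ n := by exact_mod_cast hmn
                linarith
              apply mul_le_mul hk1 (by linarith) h6 zero_le_one
            linarith
        · obtain ⟨T, hT1, hT2, hT3⟩ := piece_lower (self_mem_piece (bp s) (SP φL φA s)) (s+1) n hns
          refine ⟨T, fun t ht => ⟨hinj t (hT2 t ht).1, ?_⟩, hT3, ?_⟩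
          · have h3 := pP_bdd (hT2 t ht).1
            have h4 := pP_bdd hx'
            have h5 : (1/2:ℝ)^s ≤ (1/2)^m := pow_le_pow_of_le_one (by norm_num) (by norm_num) hsm
            have h6 : (0:ℝ) < (1/2)^s := by positivity
            rw [abs_le]
            constructor <;> linarith [h3.1, h3.2, h4.1, h4.2]
          · rw [hT1]
            apply rpow_cast_le
            have h1 := le_cnt_stair _ (s+1) (pstep h hs) (le_refl (s+1)) hns
            have h2 := (gs_step h (h.gr_ph s) hs (le_refl s)).2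
            rw [gs_self (h.gr_ph s).one hs] at h2
            have hsn : s ≤ n := by omega
            have hs0 : (0:ℝ) < s := by exact_mod_cast hs
            have h3 : n * φL (s/n) ≤ gs (ph φL φA s) s n := by
              unfold gs
              gcongr
              exact (h.gr_ph s).ge _ (div_mem hs hsn)
            -- shift from `m` to `s`
            have h4 : φL (m/n) - m/s * φL (s/n) ≤ φA (m/s) := by
              have := h.LA _ (div_mem hs hsn) _ (div_mem hm hsm)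
              have h5 : (s:ℝ)/n * (m/s) = m/n := by field_simp
              rwa [h5] at this
            have h5 : φA (m/s) ≤ 1 / m := by
              have h6 := h.le _ (div_mem hm hsm)
              have h7 : (s:ℝ) ≤ m + 1 := by exact_mod_cast hms
              have h8 : (m:ℝ) ≤ s := by exact_mod_cast hsm
              have h9 : 1 * (1 - (m:ℝ)/s) ≤ 1/m := by
                rw [one_mul, one_sub_div hs0.ne', div_le_div_iff₀ hs0 hm0]
                nlinarith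
              linarith
            have h6 : φL (m/n) ≤ φL (s/n) + 1/m := by
              have h7 : (m:ℝ)/s * φL (s/n) ≤ 1 * φL (s/n) := by
                have h8 := h.nonneg _ (div_mem hs hsn)
                have h9 := (div_mem hm hsm).2
                gcongr
              linarith
            have h7 : n * φL (m/n) ≤ n * φL (s/n) + n/m := by
              calc n * φL (m/n) ≤ n * (φL (s/n) + 1/m) := by gcongr
                _ = n * φL (s/n) + n/m := by ring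
            unfold SP
            linarith

/-- upper bound for all balls -/
lemma EE_upper (h : JP 1 φL φA) {x : ℝ} (hx : x ∈ EE φL φA) {m n : ℕ} (hm : 1 ≤ m) (hmn : m ≤ n) :
    ∃ T : Finset ℝ, (∀ z ∈ EE φL φA, |z - x| ≤ (1/2)^m → ∃ t ∈ T, |z - t| ≤ (1/2)^n) ∧
      (T.card : ℝ) ≤ (8 * n + 18) * (2:ℝ)^(n * φA (m/n)) := by
  classical
  have hm0 : (0:ℝ) < m := by exact_mod_cast hm
  have hn0 : (0:ℝ) < n := by exact_mod_cast (hm.trans hmn)
  have hθ := div_mem hm hmn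
  have hk0 := h.kap_nonneg zero_le_one
  have hk1 := h.kap_le_one
  have hP : 0 < (2:ℝ)^(n * φA (m/n)) := by positivity
  have h8 : ∀ c : ℝ, (c:ℝ) ≤ n * φA (m/n) + 1 → (4:ℝ) * (2:ℝ)^c ≤ 8 * (2:ℝ)^(n * φA (m/n)) := by
    intro c hc
    calc (4:ℝ) * (2:ℝ)^c ≤ 4 * (2:ℝ)^(n * φA (m/n) + 1) := by
          gcongr
          norm_num
      _ = 8 * (2:ℝ)^(n * φA (m/n)) := by
          rw [Real.rpow_add (by norm_num), Real.rpow_one]; ring
  have h8' : ∀ (T : Finset ℝ) (c : ℕ), T.card ≤ 4 * 2^c → (c:ℝ) ≤ n * φA (m/n) + 1 →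
      (T.card : ℝ) ≤ 8 * (2:ℝ)^(n * φA (m/n)) := by
    intro T c hT hc
    refine le_trans ?_ (h8 c hc)
    rw [Real.rpow_natCast]
    exact_mod_cast hT
  by_cases hcase : ∃ s, 1 ≤ s ∧ s < m ∧ x ∈ piece (bp s) (SP φL φA s)
  · obtain ⟨s, hs, hsm, hxs⟩ := hcase
    obtain ⟨T, hT1, hT2⟩ := piece_upper (bp s) (SP φL φA s) x m n hmn
    refine ⟨T, fun z hz hzx => hT2 z (isol hsm hxs hz hzx) hzx, ?_⟩
    have h1 := cnt_stair_le _ (s+1) (pstep h hs) (show s+1 ≤ m by omega) hmn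
    have h2 := (gs_inc (h.gr_ph s) hs hsm.le hmn).2
    have h3 := h8' T _ hT1 (by unfold SP; linarith)
    nlinarith
  · -- main part
    obtain ⟨TM, hTM1, hTM2⟩ := piece_upper 0 (SM φL) x m n hmn
    have hTs : ∀ s, ∃ T : Finset ℝ, T.card ≤ 4 * 2^(cnt (SP φL φA s) m n) ∧
      ∀ x' ∈ piece (bp s) (SP φL φA s), |x' - x| ≤ (1/2)^m → ∃ t ∈ T, |x' - t| ≤ (1/2)^n :=
      fun s => piece_upper (bp s) (SP φL φA s) x m n hmn
    choose Ts hTs1 hTs2 using hTs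
    refine ⟨TM ∪ (Finset.Ico m n).biUnion Ts ∪ {-(1/2:ℝ)^n, -2*(1/2:ℝ)^n}, ?_, ?_⟩
    · intro z hz hzx
      rcases mem_EE.1 hz with hz' | ⟨s, hs, hz'⟩
      · obtain ⟨t, ht, htz⟩ := hTM2 z hz' hzx
        exact ⟨t, by simp [ht], htz⟩
      · have hsm : m ≤ s := by
          by_contra hcon
          push Not at hcon
          apply hcase
          refine ⟨s, hs, hcon, isol hcon hz' hx ?_⟩
          rwa [abs_sub_comm]
        rcases lt_or_ge s n with hsn | hsn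
        · obtain ⟨t, ht, htz⟩ := hTs2 s z hz' hzx
          refine ⟨t, ?_, htz⟩
          rw [Finset.mem_union, Finset.mem_union, Finset.mem_biUnion]
          exact Or.inl (Or.inr ⟨s, Finset.mem_Ico.2 ⟨hsm, hsn⟩, ht⟩)
        · obtain ⟨h1, h2⟩ := pP_bdd hz'
          have h3 : (1/2:ℝ)^s ≤ (1/2)^n := pow_le_pow_of_le_one (by norm_num) (by norm_num) hsn
          have h4 : (0:ℝ) < (1/2)^s := by positivity
          rcases le_or_gt (-2*(1/2:ℝ)^n) z with h5 | h5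
          · refine ⟨-(1/2:ℝ)^n, by simp, ?_⟩
            rw [abs_le]
            constructor <;> linarith
          · refine ⟨-2*(1/2:ℝ)^n, by simp, ?_⟩
            rw [abs_le]
            constructor <;> linarith
    · have hc1 : (TM.card : ℝ) ≤ 8 * (2:ℝ)^(n * φA (m/n)) := by
        apply h8' TM _ hTM1
        have h1 := cnt_stair_le _ 0 (kstep h) (Nat.zero_le m) hmn
        have h2 : kap φL * (n - m) ≤ n * φA (m/n) := by
          calc kap φL * (n - m) = n * (kap φL * (1 - m/n)) := by field_simp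
            _ ≤ n * φA (m/n) := by gcongr; exact h.kap_hi zero_le_one hθ
        unfold SM
        linarith
      have hc2 : ∀ s ∈ Finset.Ico m n, ((Ts s).card : ℝ) ≤ 8 * (2:ℝ)^(n * φA (m/n)) := by
        intro s hs
        rw [Finset.mem_Ico] at hs
        have hs1 : 1 ≤ s := hm.trans hs.1
        apply h8' (Ts s) _ (hTs1 s)
        have h0 : cnt (SP φL φA s) m n = cnt (SP φL φA s) (s+1) n :=
          cnt_stair_small _ _ (by omega) (by omega)
        rw [h0]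
        have h1 := cnt_stair_le _ (s+1) (pstep h hs1) (le_refl (s+1)) (show s+1 ≤ n by omega)
        have h2 := (gs_step h (h.gr_ph s) hs1 (le_refl s)).1
        rw [gs_self (h.gr_ph s).one hs1] at h2
        have h3 : gs (ph φL φA s) s n ≤ n * φA (m/n) := by
          unfold gs
          gcongr
          refine ((h.gr_ph s).le _ (div_mem hs1 hs.2.le)).trans ?_
          apply h.antiA (by positivity) _ (div_mem hs1 hs.2.le).2
          have : (m:ℝ) ≤ s := by exact_mod_cast hs.1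
          gcongr
        unfold SP
        linarith
      have hc3 : (((Finset.Ico m n).biUnion Ts).card : ℝ) ≤ n * (8 * (2:ℝ)^(n * φA (m/n))) := by
        calc (((Finset.Ico m n).biUnion Ts).card : ℝ) ≤ ∑ s ∈ Finset.Ico m n, ((Ts s).card : ℝ) := by
              exact_mod_cast Finset.card_biUnion_le
          _ ≤ ∑ s ∈ Finset.Ico m n, 8 * (2:ℝ)^(n * φA (m/n)) := Finset.sum_le_sum hc2
          _ = (n - m : ℕ) * (8 * (2:ℝ)^(n * φA (m/n))) := by
              rw [Finset.sum_const, Nat.card_Ico, nsmul_eq_mul]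
          _ ≤ n * (8 * (2:ℝ)^(n * φA (m/n))) := by
              gcongr
              exact Nat.sub_le _ _
      have hc4 : ((({-(1/2:ℝ)^n, -2*(1/2:ℝ)^n} : Finset ℝ)).card : ℝ) ≤ 2 := by
        exact_mod_cast Finset.card_le_two
      have hge1 : 1 ≤ (2:ℝ)^(n * φA (m/n)) := by
        apply Real.one_le_rpow (by norm_num)
        have := (h.nonneg _ hθ).trans (h.L_le_A hθ)
        positivity
      calc ((TM ∪ (Finset.Ico m n).biUnion Ts ∪ {-(1/2:ℝ)^n, -2*(1/2:ℝ)^n} : Finset ℝ).card : ℝ)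
          ≤ TM.card + ((Finset.Ico m n).biUnion Ts).card +
            ({-(1/2:ℝ)^n, -2*(1/2:ℝ)^n} : Finset ℝ).card := by
            have h1 := Finset.card_union_le (TM ∪ (Finset.Ico m n).biUnion Ts)
              {-(1/2:ℝ)^n, -2*(1/2:ℝ)^n}
            have h2 := Finset.card_union_le TM ((Finset.Ico m n).biUnion Ts)
            exact_mod_cast (h1.trans (Nat.add_le_add_right h2 _))
        _ ≤ 8 * (2:ℝ)^(n * φA (m/n)) + n * (8 * (2:ℝ)^(n * φA (m/n))) + 2 := by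
            linarith
        _ ≤ (8 * n + 18) * (2:ℝ)^(n * φA (m/n)) := by nlinarith

/-- trivial bound -/
lemma EE_all (n : ℕ) : ∃ T : Finset ℝ, (∀ z ∈ EE φL φA, ∃ t ∈ T, |z - t| ≤ (1/2)^n) ∧
      (T.card : ℝ) ≤ 4 * 2^n + 1 := by
  classical
  refine ⟨(Finset.Icc (-3 * 2^n : ℤ) (2^n : ℤ)).image (fun k : ℤ => (k:ℝ) * (1/2)^n), ?_, ?_⟩
  · intro z hz
    have hz2 : -3 ≤ z ∧ z ≤ 1 := by
      rcases mem_EE.1 hz with hz' | ⟨s, hs, hz'⟩
      · have := pM_bdd hz'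
        constructor <;> linarith [this.1, this.2]
      · have := pP_bdd hz'
        have h1 : (1/2:ℝ)^s ≤ 1 := pow_le_one₀ (by norm_num) (by norm_num)
        have h2 : (0:ℝ) < (1/2)^s := by positivity
        constructor <;> linarith [this.1, this.2]
    have h2n : (0:ℝ) < 2^n := by positivity
    have hmm : (2:ℝ)^n * (1/2)^n = 1 := by rw [← mul_pow]; norm_num
    refine ⟨(⌊2^n * z⌋ : ℝ) * (1/2)^n, ?_, ?_⟩
    · apply Finset.mem_image.2
      refine ⟨⌊2^n * z⌋, ?_, rfl⟩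
      rw [Finset.mem_Icc]
      constructor
      · rw [Int.le_floor]
        push_cast
        nlinarith [hz2.1]
      · have h1 := Int.floor_le (2^n * z)
        have h3 : (⌊2^n * z⌋ : ℝ) ≤ ((2^n : ℤ) : ℝ) := by
          push_cast
          nlinarith [hz2.2]
        exact_mod_cast h3
    · have h1 := Int.floor_le (2^n * z)
      have h2 := Int.lt_floor_add_one (2^n * z)
      have h3 : z - (⌊2^n * z⌋ : ℝ) * (1/2)^n = (2^n * z - ⌊2^n * z⌋) * (1/2)^n := by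
        linear_combination (-z) * hmm
      rw [h3, abs_mul, abs_of_nonneg (by linarith : 0 ≤ 2^n * z - ⌊2^n * z⌋),
        abs_of_pos (show (0:ℝ) < (1/2)^n by positivity)]
      have : (0:ℝ) < (1/2)^n := by positivity
      nlinarith
  · refine (Nat.cast_le.2 Finset.card_image_le).trans ?_
    rw [Int.card_Icc]
    have h1 : (((2^n + 1 - (-3 * 2^n) : ℤ)).toNat : ℤ) = 4 * 2^n + 1 := by
      rw [Int.toNat_of_nonneg (by
        have : (0:ℤ) < 2^n := by positivity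
        linarith)]
      ring
    have h2 : (((2^n + 1 - (-3 * 2^n) : ℤ)).toNat : ℝ) = 4 * 2^n + 1 := by exact_mod_cast h1
    rw [h2]

/-- sharpness of the lower bound -/
lemma EE_sharpL (h : JP 1 φL φA) {s n : ℕ} (hs : 1 ≤ s) (hev : Even s) (hsn : s + 1 ≤ n) :
    bp s ∈ EE φL φA ∧ ∃ T : Finset ℝ,
      (∀ z ∈ EE φL φA, |z - bp s| ≤ (1/2)^(s+1) → ∃ t ∈ T, |z - t| ≤ (1/2)^n) ∧
      (T.card : ℝ) ≤ 8 * (2:ℝ)^(n * φL (s/n)) := by
  have hmem := self_mem_piece (bp s) (SP φL φA s)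
  refine ⟨mem_EE.2 (Or.inr ⟨s, hs, hmem⟩), ?_⟩
  obtain ⟨T, hT1, hT2⟩ := piece_upper (bp s) (SP φL φA s) (bp s) (s+1) n hsn
  refine ⟨T, fun z hz hzx => hT2 z (isol (Nat.lt_succ_self s) hmem hz hzx) hzx, ?_⟩
  have h1 := cnt_stair_le _ (s+1) (pstep h hs) (le_refl (s+1)) hsn
  have h2 := (gs_step h (h.gr_ph s) hs (le_refl s)).1
  rw [gs_self (h.gr_ph s).one hs] at h2
  have h3 : gs (ph φL φA s) s n = n * φL (s/n) := by
    unfold gs ph
    rw [if_pos hev]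
  have hc : (cnt (SP φL φA s) (s+1) n : ℝ) ≤ n * φL (s/n) + 1 := by
    unfold SP
    linarith
  calc (T.card : ℝ) ≤ 4 * (2:ℝ)^(cnt (SP φL φA s) (s+1) n : ℝ) := by
        rw [Real.rpow_natCast]
        exact_mod_cast hT1
    _ ≤ 4 * (2:ℝ)^(n * φL (s/n) + 1) := by
        gcongr
        norm_num
    _ = 8 * (2:ℝ)^(n * φL (s/n)) := by
        rw [Real.rpow_add (by norm_num), Real.rpow_one]; ring

/-- sharpness of the upper bound -/
lemma EE_sharpA (h : JP 1 φL φA) {s n : ℕ} (hs : 1 ≤ s) (hodd : ¬ Even s) (hsn : s + 1 ≤ n) :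
    bp s ∈ EE φL φA ∧ ∃ T : Finset ℝ,
      (∀ t ∈ T, t ∈ EE φL φA ∧ |t - bp s| ≤ (1/2)^(s+1)) ∧
      (∀ t ∈ T, ∀ z ∈ T, t ≠ z → (1/2)^n ≤ |t - z|) ∧
      (2:ℝ)^(n * φA (s/n) - 2) ≤ T.card := by
  have hmem := self_mem_piece (bp s) (SP φL φA s)
  refine ⟨mem_EE.2 (Or.inr ⟨s, hs, hmem⟩), ?_⟩
  obtain ⟨T, hT1, hT2, hT3⟩ := piece_lower hmem (s+1) n hsn
  refine ⟨T, fun t ht => ⟨mem_EE.2 (Or.inr ⟨s, hs, (hT2 t ht).1⟩), (hT2 t ht).2⟩, hT3, ?_⟩
  rw [hT1]
  apply rpow_cast_le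
  have h1 := le_cnt_stair _ (s+1) (pstep h hs) (le_refl (s+1)) hsn
  have h2 := (gs_step h (h.gr_ph s) hs (le_refl s)).2
  rw [gs_self (h.gr_ph s).one hs] at h2
  have h3 : gs (ph φL φA s) s n = n * φA (s/n) := by
    unfold gs ph
    rw [if_neg hodd]
  unfold SP
  linarith

end Q77.Sp
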