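import Mathlib
import Pool.Agent.Q77.Sp.Line

set_option autoImplicit false

/-!
# Products of the one-dimensional set and the spectra
-/

namespace Q77.Sp

open Set Metric

/-- The least number of closed balls of radius `r` needed to cover `E` (a natural number, used for
bounded `E` and `r > 0`, where finite covers exist). -/
noncomputable def covN {d : ℕ} (r : ℝ) (E : Set (EuclideanSpace ℝ (Fin d))) : ℕ :=
  sInf {k | ∃ t : Finset (EuclideanSpace ℝ (Fin d)), t.card = k ∧ E ⊆ ⋃ x ∈ t, closedBall x r}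

/-- The lower spectrum at `θ`. -/
noncomputable def lowerSpec {d : ℕ} (θ : ℝ) (F : Set (EuclideanSpace ℝ (Fin d))) : ℝ :=
  sSup {s : ℝ | 0 ≤ s ∧ ∃ C : ℝ, 0 < C ∧ ∀ r : ℝ, 0 < r → r < 1 → ∀ x ∈ F,
    C * (r^θ / r)^s ≤ (covN r (closedBall x (r^θ) ∩ F) : ℝ)}

/-- The Assouad spectrum at `θ`. -/
noncomputable def assouadSpec {d : ℕ} (θ : ℝ) (F : Set (EuclideanSpace ℝ (Fin d))) : ℝ :=
  sInf {s : ℝ | 0 ≤ s ∧ ∃ C : ℝ, 0 < C ∧ ∀ r : ℝ, 0 < r → r < 1 → ∀ x ∈ F,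
    (covN r (closedBall x (r^θ) ∩ F) : ℝ) ≤ C * (r^θ / r)^s}

variable {d : ℕ}

lemma coord_le (x y : EuclideanSpace ℝ (Fin d)) (i : Fin d) : |x i - y i| ≤ dist x y := by
  rw [dist_eq_norm]
  have := PiLp.norm_apply_le (x - y) i
  simpa using this

lemma dist_le_coord {x y : EuclideanSpace ℝ (Fin d)} {a : ℝ} (ha : 0 ≤ a)
    (h : ∀ i, |x i - y i| ≤ a) : dist x y ≤ 2^d * a := by
  rw [EuclideanSpace.dist_eq]
  apply Real.sqrt_le_iff.2
  refine ⟨by positivity, ?_⟩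
  calc ∑ i, dist (x i) (y i)^2 ≤ ∑ _i : Fin d, a^2 := by
        apply Finset.sum_le_sum
        intro i _
        rw [Real.dist_eq]
        exact pow_le_pow_left₀ (abs_nonneg _) (h i) 2
    _ = d * a^2 := by simp
    _ ≤ (2^d)^2 * a^2 := by
        have h1 : (d:ℝ) ≤ 2^d := by exact_mod_cast Nat.lt_two_pow_self.le
        have h2 : (1:ℝ) ≤ 2^d := one_le_pow₀ (by norm_num)
        have h3 : (d:ℝ) ≤ (2^d)^2 := by nlinarith
        gcongr
    _ = (2^d * a)^2 := by ring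

/-- the product of finite sets -/
noncomputable def prodF (T : Fin d → Finset ℝ) : Finset (EuclideanSpace ℝ (Fin d)) :=
  (Fintype.piFinset T).map (WithLp.equiv 2 (Fin d → ℝ)).symm.toEmbedding

lemma mem_prodF {T : Fin d → Finset ℝ} {x : EuclideanSpace ℝ (Fin d)} :
    x ∈ prodF T ↔ ∀ i, x i ∈ T i := by
  unfold prodF
  rw [Finset.mem_map]
  constructor
  · rintro ⟨y, hy, rfl⟩ i
    exact Fintype.mem_piFinset.1 hy i
  · intro h
    exact ⟨WithLp.equiv 2 (Fin d → ℝ) x, Fintype.mem_piFinset.2 h, by simp⟩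

lemma card_prodF (T : Fin d → Finset ℝ) : (prodF T).card = ∏ i, (T i).card := by
  unfold prodF
  rw [Finset.card_map, Fintype.card_piFinset]

/-- the product set -/
def FF (d : ℕ) (E : Set ℝ) : Set (EuclideanSpace ℝ (Fin d)) := {x | ∀ i, x i ∈ E}

lemma covN_le {E : Set ℝ} {x : EuclideanSpace ℝ (Fin d)} {R r ρ a K : ℝ} (hρ : R ≤ ρ)
    (ha : 0 ≤ a) (har : 2^d * a ≤ r) {T : Fin d → Finset ℝ}
    (hT : ∀ i, ∀ z ∈ E, |z - x i| ≤ ρ → ∃ t ∈ T i, |z - t| ≤ a)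
    (hK : ∀ i, ((T i).card : ℝ) ≤ K) :
    (covN r (closedBall x R ∩ FF d E) : ℝ) ≤ K^d := by
  have h1 : covN r (closedBall x R ∩ FF d E) ≤ (prodF T).card := by
    apply Nat.sInf_le
    refine ⟨prodF T, rfl, ?_⟩
    rintro z ⟨hz1, hz2⟩
    have h2 : ∀ i, ∃ t ∈ T i, |z i - t| ≤ a := by
      intro i
      apply hT i (z i) (hz2 i)
      exact (coord_le z x i).trans ((mem_closedBall.1 hz1).trans hρ)
    choose t ht1 ht2 using h2
    rw [mem_iUnion₂]
    refine ⟨WithLp.toLp 2 t, mem_prodF.2 (fun i => ht1 i), ?_⟩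
    rw [mem_closedBall]
    exact (dist_le_coord ha (fun i => ht2 i)).trans har
  calc (covN r (closedBall x R ∩ FF d E) : ℝ) ≤ ((prodF T).card : ℝ) := by exact_mod_cast h1
    _ = ∏ i, ((T i).card : ℝ) := by rw [card_prodF]; push_cast; rfl
    _ ≤ ∏ _i : Fin d, K := Finset.prod_le_prod (fun i _ => by positivity) (fun i _ => hK i)
    _ = K^d := by simp

lemma le_covN {E : Set ℝ} {x : EuclideanSpace ℝ (Fin d)} {R r ρ K : ℝ} (hr : 0 < r) (hρ0 : 0 ≤ ρ)
    (hρ : 2^d * ρ ≤ R) (hK0 : 0 ≤ K) {T : Fin d → Finset ℝ}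
    (hT : ∀ i, ∀ z ∈ T i, z ∈ E ∧ |z - x i| ≤ ρ)
    (hsep : ∀ i, ∀ t ∈ T i, ∀ z ∈ T i, t ≠ z → 2 * r < |t - z|)
    (hK : ∀ i, K ≤ ((T i).card : ℝ)) :
    K^d ≤ (covN r (closedBall x R ∩ FF d E) : ℝ) := by
  classical
  have hne : {k | ∃ t : Finset (EuclideanSpace ℝ (Fin d)), t.card = k ∧
      closedBall x R ∩ FF d E ⊆ ⋃ x ∈ t, closedBall x r}.Nonempty := by
    have hc : IsCompact (closedBall x R) := isCompact_closedBall x R
    obtain ⟨t, ht1, ht2, ht3⟩ := hc.finite_cover_balls hr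
    refine ⟨ht2.toFinset.card, ht2.toFinset, rfl, ?_⟩
    refine inter_subset_left.trans (ht3.trans ?_)
    intro z hz
    rw [mem_iUnion₂] at hz ⊢
    obtain ⟨y, hy, hzy⟩ := hz
    exact ⟨y, by simpa using hy, ball_subset_closedBall hzy⟩
  have h1 : (prodF T).card ≤ covN r (closedBall x R ∩ FF d E) := by
    apply le_csInf hne
    rintro k ⟨t, rfl, ht⟩
    have hsub : ∀ p ∈ prodF T, ∃ y ∈ t, p ∈ closedBall y r := by
      intro p hp
      rw [mem_prodF] at hp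
      have h2 : p ∈ closedBall x R ∩ FF d E := by
        refine ⟨?_, fun i => (hT i _ (hp i)).1⟩
        rw [mem_closedBall]
        exact (dist_le_coord hρ0 (fun i => (hT i _ (hp i)).2)).trans hρ
      have h3 := ht h2
      rw [mem_iUnion₂] at h3
      obtain ⟨y, hy, hpy⟩ := h3
      exact ⟨y, hy, hpy⟩
    choose! f hf1 hf2 using hsub
    apply Finset.card_le_card_of_injOn f (fun p hp => hf1 p hp)
    intro p hp q hq hpq
    by_contra hne
    have h4 : ∃ i, p i ≠ q i := by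
      by_contra hcon
      push Not at hcon
      apply hne
      ext i
      exact hcon i
    obtain ⟨i, hi⟩ := h4
    have h5 := hsep i _ (mem_prodF.1 hp i) _ (mem_prodF.1 hq i) hi
    have h6 := coord_le p q i
    have h7 : dist p q ≤ 2 * r := by
      have h8 := hf2 p hp
      have h9 := hf2 q hq
      rw [← hpq] at h9
      rw [mem_closedBall] at h8 h9
      have := dist_triangle_right p q (f p)
      linarith
    linarith
  calc K^d = ∏ _i : Fin d, K := by simp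
    _ ≤ ∏ i, ((T i).card : ℝ) := Finset.prod_le_prod (fun i _ => hK0) (fun i _ => hK i)
    _ = ((prodF T).card : ℝ) := by rw [card_prodF]; push_cast; rfl
    _ ≤ _ := by exact_mod_cast h1

lemma one_le_covN {E : Set ℝ} {x : EuclideanSpace ℝ (Fin d)} (hx : x ∈ FF d E) {R r : ℝ}
    (hr : 0 < r) (hR : 0 ≤ R) : 1 ≤ (covN r (closedBall x R ∩ FF d E) : ℝ) := by
  have := le_covN (E := E) (x := x) (R := R) (r := r) (ρ := 0) (K := 1) hr le_rfl (by simpa)
    zero_le_one (T := fun i => {x i}) (by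
      intro i z hz
      rw [Finset.mem_singleton] at hz
      subst hz
      exact ⟨hx i, by simp⟩) (by
      intro i t ht z hz hne
      rw [Finset.mem_singleton] at ht hz
      exact absurd (ht.trans hz.symm) hne) (by intro i; simp)
  simpa using this

/-! ### comparison of parameters -/

/-- regularity of the growth exponents -/
structure Reg (φ : ℝ → ℝ) : Prop where
  anti : ∀ a b : ℝ, 0 < a → a ≤ b → b ≤ 1 → φ b ≤ φ a
  lip : ∀ a b : ℝ, 0 < a → a ≤ b → b ≤ 1 → φ a ≤ φ b + (1 - a/b)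
  nonneg : ∀ a ∈ Ioc (0:ℝ) 1, 0 ≤ φ a
  le_one : ∀ a ∈ Ioc (0:ℝ) 1, φ a ≤ 1

variable {φL φA : ℝ → ℝ}

lemma JP.regL (h : JP 1 φL φA) : Reg φL := by
  refine ⟨fun a b ha hab hb => h.antiL ha hab hb, ?_, h.nonneg, ?_⟩
  · intro a b ha hab hb
    have hb0 : 0 < b := ha.trans_le hab
    have hab' : a/b ∈ Ioc (0:ℝ) 1 := ⟨by positivity, by rw [div_le_one hb0]; exact hab⟩
    have h1 := h.LA b ⟨hb0, hb⟩ (a/b) hab'
    rw [mul_div_cancel₀ _ hb0.ne'] at h1
    have h2 := h.le _ hab'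
    have h3 := h.nonneg b ⟨hb0, hb⟩
    have h4 : a/b * φL b ≤ 1 * φL b := mul_le_mul_of_nonneg_right hab'.2 h3
    linarith
  · intro a ha
    have h1 := h.L_le_A ha
    have h2 := h.le a ha
    linarith [ha.1]

lemma JP.regA (h : JP 1 φL φA) : Reg φA := by
  have hnn : ∀ a ∈ Ioc (0:ℝ) 1, 0 ≤ φA a := fun a ha => (h.nonneg a ha).trans (h.L_le_A ha)
  refine ⟨fun a b ha hab hb => h.antiA ha hab hb, ?_, hnn, ?_⟩
  · intro a b ha hab hb
    have hb0 : 0 < b := ha.trans_le hab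
    have hab' : a/b ∈ Ioc (0:ℝ) 1 := ⟨by positivity, by rw [div_le_one hb0]; exact hab⟩
    have h1 := h.AA b ⟨hb0, hb⟩ (a/b) hab'
    rw [mul_div_cancel₀ _ hb0.ne'] at h1
    have h2 := h.le _ hab'
    have h3 := hnn b ⟨hb0, hb⟩
    have h4 : a/b * φA b ≤ 1 * φA b := mul_le_mul_of_nonneg_right hab'.2 h3
    linarith
  · intro a ha
    have h2 := h.le a ha
    linarith [ha.1]

lemma Reg.cmp {φ : ℝ → ℝ} (h : Reg φ) {θ c t : ℝ} (hθ : θ ∈ Ioc (0:ℝ) 1) {m n : ℕ}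
    (hm : 1 ≤ m) (hmn : m ≤ n) (h1 : |t - n| ≤ c) (h2 : |m - θ * t| ≤ c) :
    |n * φ (m/n) - t * φ θ| ≤ c + 2 * c / θ := by
  have hm0 : (0:ℝ) < m := by exact_mod_cast hm
  have hn0 : (0:ℝ) < n := by exact_mod_cast (hm.trans hmn)
  have hmn' := div_mem hm hmn
  have hθ0 := hθ.1
  have hc : 0 ≤ c := (abs_nonneg _).trans h1
  have h3 : |m - θ * n| ≤ 2 * c := by
    have h4 : (m:ℝ) - θ * n = (m - θ * t) + θ * (t - n) := by ring
    rw [h4]
    calc |(m - θ * t) + θ * (t - n)| ≤ |m - θ * t| + |θ * (t - n)| := abs_add_le _ _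
      _ ≤ c + 1 * c := by
          rw [abs_mul, abs_of_pos hθ0]
          gcongr
          exact hθ.2
      _ = 2 * c := by ring
  have h5 : |n * φ (m/n) - n * φ θ| ≤ 2 * c / θ := by
    rw [← mul_sub, abs_mul, abs_of_pos hn0]
    rw [abs_le] at h3
    rcases le_total ((m:ℝ)/n) θ with h6 | h6
    · have h7 := h.anti _ _ hmn'.1 h6 hθ.2
      have h8 := h.lip _ _ hmn'.1 h6 hθ.2
      rw [abs_of_nonneg (by linarith), le_div_iff₀ hθ0]
      calc n * (φ (m/n) - φ θ) * θ ≤ n * (1 - m/n/θ) * θ :=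
            mul_le_mul_of_nonneg_right (mul_le_mul_of_nonneg_left (by linarith) hn0.le) hθ0.le
        _ = θ * n - m := by field_simp
        _ ≤ 2 * c := by linarith
    · have h7 := h.anti _ _ hθ0 h6 hmn'.2
      have h8 := h.lip _ _ hθ0 h6 hmn'.2
      rw [abs_of_nonpos (by linarith), le_div_iff₀ hθ0]
      have h9 : θ * n ≤ m := by
        rwa [le_div_iff₀ hn0] at h6
      calc n * -(φ (m/n) - φ θ) * θ ≤ n * (1 - θ/(m/n)) * θ :=
            mul_le_mul_of_nonneg_right (mul_le_mul_of_nonneg_left (by linarith) hn0.le) hθ0.le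
        _ = (θ * n) * (1 - θ * n / m) := by field_simp
        _ ≤ m * (1 - θ * n / m) := by
            have : 0 ≤ 1 - θ * n / m := by
              rw [sub_nonneg, div_le_one hm0]; exact h9
            gcongr
        _ = m - θ * n := by field_simp
        _ ≤ 2 * c := by linarith
  have h6 : |n * φ θ - t * φ θ| ≤ c := by
    rw [← sub_mul, abs_mul, abs_of_nonneg (h.nonneg θ hθ), abs_sub_comm]
    calc |t - n| * φ θ ≤ c * 1 := by
          gcongr
          · exact h.nonneg θ hθ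
          · exact h.le_one θ hθ
      _ = c := mul_one c
  calc |n * φ (m/n) - t * φ θ| = |(n * φ (m/n) - n * φ θ) + (n * φ θ - t * φ θ)| := by ring_nf
    _ ≤ |n * φ (m/n) - n * φ θ| + |n * φ θ - t * φ θ| := abs_add_le _ _
    _ ≤ c + 2 * c / θ := by linarith

lemma half_pow_eq (n : ℕ) : (1/2:ℝ)^n = (2:ℝ)^(-(n:ℝ)) := by
  rw [Real.rpow_neg (by norm_num), Real.rpow_natCast, one_div, inv_pow]

lemma two_pow_mul (d : ℕ) (n : ℕ) : (2:ℝ)^d * (1/2)^n = (2:ℝ)^((d:ℝ) - n) := by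
  rw [half_pow_eq, ← Real.rpow_natCast, ← Real.rpow_add (by norm_num)]
  rfl

/-- (1) the lower bound for all balls -/
lemma est1 (h : JP 1 φL φA) (d : ℕ) {θ : ℝ} (hθ0 : 0 < θ) (hθ1 : θ < 1) :
    ∃ C : ℝ, 0 < C ∧ ∀ t : ℝ, 0 < t → ∀ x ∈ FF d (EE φL φA),
      C * (2:ℝ)^(t * (d * φL θ)) ≤
        (covN ((2:ℝ)^(-t)) (closedBall x ((2:ℝ)^(-(θ * t))) ∩ FF d (EE φL φA)) : ℝ) := by
  have hθ : θ ∈ Ioc (0:ℝ) 1 := ⟨hθ0, hθ1.le⟩
  set c : ℝ := d + 2 with hc
  set M : ℝ := c + 2 * c / θ + 3 + 1/θ + (3 + d) with hM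
  have hM0 : 0 ≤ 2 * c / θ := by positivity
  have hM1 : 0 ≤ 1/θ := by positivity
  refine ⟨(2:ℝ)^(-(d * M)), by positivity, ?_⟩
  intro t ht x hx
  have hr : (0:ℝ) < (2:ℝ)^(-t) := by positivity
  have hR : (0:ℝ) < (2:ℝ)^(-(θ * t)) := by positivity
  set m := ⌈θ * t⌉₊ + d with hm
  set n := ⌈t⌉₊ - 2 with hn
  have hm1 : 1 ≤ m := by
    have : 0 < ⌈θ * t⌉₊ := Nat.ceil_pos.2 (by positivity)
    omega
  have hmlo : θ * t + d ≤ m := by
    rw [hm]; push_cast; linarith [Nat.le_ceil (θ * t)]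
  have hmhi : (m:ℝ) < θ * t + d + 1 := by
    rw [hm]; push_cast
    linarith [Nat.ceil_lt_add_one (show 0 ≤ θ * t by positivity)]
  have hnlo : t - 2 ≤ n := by
    rw [hn]
    have h1 := Nat.le_ceil t
    have h2 : (⌈t⌉₊ : ℝ) ≤ ((⌈t⌉₊ - 2 : ℕ) : ℝ) + 2 := by
      exact_mod_cast (show ⌈t⌉₊ ≤ (⌈t⌉₊ - 2) + 2 by omega)
    linarith
  rw [← Real.rpow_add (by norm_num)]
  rcases le_or_gt m n with hmn | hmn
  · have hn1 : 1 ≤ n := hm1.trans hmn
    have hnhi : (n:ℝ) + 1 < t := by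
      have h1 := Nat.ceil_lt_add_one ht.le
      have h2 : ((⌈t⌉₊ - 2 : ℕ) : ℝ) = (⌈t⌉₊ : ℝ) - 2 := by
        rw [Nat.cast_sub (by omega)]; norm_num
      rw [hn, h2]
      linarith
    have hlow : ∀ i : Fin d, ∃ T : Finset ℝ,
        (∀ z ∈ T, z ∈ EE φL φA ∧ |z - x i| ≤ (1/2)^m) ∧
        (∀ z ∈ T, ∀ w ∈ T, z ≠ w → (1/2)^n ≤ |z - w|) ∧
        (2:ℝ)^(n * φL (m/n) - 3 - n/m) ≤ T.card := fun i => EE_lower h (hx i) hm1 hmn
    choose T hT1 hT2 hT3 using hlow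
    have hmain := le_covN (E := EE φL φA) (x := x) (R := (2:ℝ)^(-(θ * t))) (r := (2:ℝ)^(-t))
      (ρ := (1/2)^m) (K := (2:ℝ)^(n * φL (m/n) - 3 - n/m)) hr (by positivity) (by
        rw [two_pow_mul]
        apply Real.rpow_le_rpow_of_exponent_le (by norm_num)
        linarith) (by positivity) hT1 (by
        intro i z hz w hw hne
        refine lt_of_lt_of_le ?_ (hT2 i z hz w hw hne)
        rw [half_pow_eq]
        calc 2 * (2:ℝ)^(-t) = (2:ℝ)^(1 - t) := by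
              rw [sub_eq_add_neg, Real.rpow_add (by norm_num), Real.rpow_one]
          _ < (2:ℝ)^(-(n:ℝ)) := by
              apply Real.rpow_lt_rpow_of_exponent_lt (by norm_num)
              linarith) hT3
    refine le_trans ?_ hmain
    rw [← Real.rpow_natCast, ← Real.rpow_mul (by norm_num)]
    apply Real.rpow_le_rpow_of_exponent_le (by norm_num)
    have hcmp := h.regL.cmp hθ (c := c) (t := t) hm1 hmn (by
      rw [abs_le]; constructor <;> linarith) (by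
      rw [abs_le]; constructor <;> linarith)
    rw [abs_le] at hcmp
    have hnm : (n:ℝ)/m ≤ 1/θ := by
      have hm0 : (0:ℝ) < m := by exact_mod_cast hm1
      rw [div_le_div_iff₀ hm0 hθ0, one_mul]
      nlinarith
    have hd : (0:ℝ) ≤ d := Nat.cast_nonneg d
    have : t * φL θ - M ≤ n * φL (m/n) - 3 - n/m := by
      rw [hM]
      linarith [hcmp.1]
    calc -(d * M) + t * (d * φL θ) = d * (t * φL θ - M) := by ring
      _ ≤ d * (n * φL (m/n) - 3 - n/m) := by gcongr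
      _ = (n * φL (m/n) - 3 - n/m) * d := by ring
  · refine le_trans ?_ (one_le_covN hx hr hR.le)
    apply Real.rpow_le_one_of_one_le_of_nonpos (by norm_num)
    have hnm : (n:ℝ) < m := by exact_mod_cast hmn
    have h1 : t * (1 - θ) ≤ 3 + d := by nlinarith
    have h2 : φL θ ≤ 1 - θ := by
      have := h.L_le_A hθ
      have := h.le θ hθ
      linarith
    have h3 : t * φL θ ≤ 3 + d := by
      calc t * φL θ ≤ t * (1 - θ) := by gcongr
        _ ≤ 3 + d := h1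
    have hd : (0:ℝ) ≤ d := Nat.cast_nonneg d
    have h4 : t * φL θ ≤ M := by rw [hM]; linarith
    have h5 : t * (d * φL θ) ≤ d * M := by
      calc t * (d * φL θ) = d * (t * φL θ) := by ring
        _ ≤ d * M := by gcongr
    linarith

/-- (2) the upper bound for all balls -/
lemma est2 (h : JP 1 φL φA) (d : ℕ) {θ : ℝ} (hθ0 : 0 < θ) (hθ1 : θ < 1) :
    ∃ C : ℝ, 0 < C ∧ ∀ t : ℝ, 0 < t → ∀ x ∈ FF d (EE φL φA),
      (covN ((2:ℝ)^(-t)) (closedBall x ((2:ℝ)^(-(θ * t))) ∩ FF d (EE φL φA)) : ℝ) ≤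
        (C * (1 + t))^d * (2:ℝ)^(t * (d * φA θ)) := by
  have hθ : θ ∈ Ioc (0:ℝ) 1 := ⟨hθ0, hθ1.le⟩
  set c : ℝ := d + 2 with hc
  set M : ℝ := c + 2 * c / θ with hM
  have hd : (0:ℝ) ≤ d := Nat.cast_nonneg d
  have hM0 : 0 ≤ 2 * c / θ := by positivity
  set C : ℝ := (8 * d + 26) * (2:ℝ)^M + 5 * (2:ℝ)^(1/θ + 1 + d) with hC
  have hC0 : 0 < C := by positivity
  refine ⟨C, hC0, ?_⟩
  intro t ht x hx
  set m := ⌊θ * t⌋₊ with hm
  set n := ⌈t⌉₊ + d with hn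
  have hnlo : t + d ≤ n := by
    rw [hn]; push_cast; linarith [Nat.le_ceil t]
  have hnhi : (n:ℝ) < t + d + 1 := by
    rw [hn]; push_cast
    linarith [Nat.ceil_lt_add_one ht.le]
  have hmlo : θ * t - 1 < m := by
    have := Nat.lt_floor_add_one (θ * t)
    rw [hm]; linarith
  have hmhi : (m:ℝ) ≤ θ * t := Nat.floor_le (by positivity)
  have hmn : m ≤ n := by
    have : (m:ℝ) ≤ n := by nlinarith
    exact_mod_cast this
  have hnn : 0 ≤ φA θ := (h.nonneg θ hθ).trans (h.L_le_A hθ)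
  have hrad : (2:ℝ)^(-(θ * t)) ≤ (1/2)^m := by
    rw [half_pow_eq]
    apply Real.rpow_le_rpow_of_exponent_le (by norm_num)
    linarith
  have har : (2:ℝ)^d * (1/2)^n ≤ (2:ℝ)^(-t) := by
    rw [two_pow_mul]
    apply Real.rpow_le_rpow_of_exponent_le (by norm_num)
    linarith
  have hconv : (C * (1 + t))^d * (2:ℝ)^(t * (d * φA θ)) =
      (C * (1 + t) * (2:ℝ)^(t * φA θ))^d := by
    rw [mul_pow (C * (1 + t)), ← Real.rpow_natCast ((2:ℝ)^(t * φA θ)), ← Real.rpow_mul (by norm_num)]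
    congr 2
    ring
  rw [hconv]
  rcases Nat.eq_zero_or_pos m with hm0 | hm1
  · have ht1 : t < 1/θ := by
      rw [hm0] at hmlo
      rw [lt_div_iff₀ hθ0]
      push_cast at hmlo
      linarith
    obtain ⟨T, hT1, hT2⟩ := EE_all (φL := φL) (φA := φA) n
    apply covN_le (ρ := (1/2)^m) (a := (1/2)^n) (T := fun _ => T) hrad (by positivity) har
      (fun i z hz _ => hT1 z hz)
    intro i
    have h1 : (2:ℝ)^n ≤ (2:ℝ)^(1/θ + 1 + d) := by
      rw [← Real.rpow_natCast]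
      apply Real.rpow_le_rpow_of_exponent_le (by norm_num)
      linarith
    have h2 : (1:ℝ) ≤ (2:ℝ)^n := one_le_pow₀ (by norm_num)
    have h3 : (T.card : ℝ) ≤ C := by
      rw [hC]
      have : 0 ≤ (8 * (d:ℝ) + 26) * (2:ℝ)^M := by positivity
      linarith
    have h4 : 1 ≤ (2:ℝ)^(t * φA θ) := Real.one_le_rpow (by norm_num) (by positivity)
    have h5 : 1 ≤ (1 + t) * (2:ℝ)^(t * φA θ) := by nlinarith
    calc (T.card : ℝ) ≤ C * 1 := by linarith
      _ ≤ C * ((1 + t) * (2:ℝ)^(t * φA θ)) := by gcongr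
      _ = C * (1 + t) * (2:ℝ)^(t * φA θ) := by ring
  · have hup : ∀ i : Fin d, ∃ T : Finset ℝ,
      (∀ z ∈ EE φL φA, |z - x i| ≤ (1/2)^m → ∃ t ∈ T, |z - t| ≤ (1/2)^n) ∧
      (T.card : ℝ) ≤ (8 * n + 18) * (2:ℝ)^(n * φA (m/n)) := fun i => EE_upper h (hx i) hm1 hmn
    choose T hT1 hT2 using hup
    apply covN_le (ρ := (1/2)^m) (a := (1/2)^n) (T := T) hrad (by positivity) har
      (fun i z hz hzx => hT1 i z hz hzx)
    intro i
    refine (hT2 i).trans ?_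
    have hcmp := h.regA.cmp hθ (c := c) (t := t) hm1 hmn (by
      rw [abs_le]; constructor <;> linarith) (by
      rw [abs_le]; constructor <;> linarith)
    rw [abs_le] at hcmp
    have h1 : (2:ℝ)^(n * φA (m/n)) ≤ (2:ℝ)^M * (2:ℝ)^(t * φA θ) := by
      rw [← Real.rpow_add (by norm_num)]
      apply Real.rpow_le_rpow_of_exponent_le (by norm_num)
      linarith [hcmp.2]
    have h2 : 8 * (n:ℝ) + 18 ≤ (8 * d + 26) * (1 + t) := by nlinarith
    calc (8 * (n:ℝ) + 18) * (2:ℝ)^(n * φA (m/n))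
        ≤ ((8 * d + 26) * (1 + t)) * ((2:ℝ)^M * (2:ℝ)^(t * φA θ)) := by gcongr
      _ = ((8 * d + 26) * (2:ℝ)^M) * (1 + t) * (2:ℝ)^(t * φA θ) := by ring
      _ ≤ C * (1 + t) * (2:ℝ)^(t * φA θ) := by
          gcongr
          rw [hC]
          have : 0 ≤ 5 * (2:ℝ)^(1/θ + 1 + d) := by positivity
          linarith

/-- (3) sharpness of the lower bound -/
lemma est3 (h : JP 1 φL φA) (d : ℕ) {θ : ℝ} (hθ0 : 0 < θ) (hθ1 : θ < 1) :
    ∃ C : ℝ, 0 < C ∧ ∀ k : ℕ, 1 ≤ k → ∃ t : ℝ, (k:ℝ) ≤ t ∧ ∃ x ∈ FF d (EE φL φA),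
      (covN ((2:ℝ)^(-t)) (closedBall x ((2:ℝ)^(-(θ * t))) ∩ FF d (EE φL φA)) : ℝ) ≤
        C * (2:ℝ)^(t * (d * φL θ)) := by
  have hθ : θ ∈ Ioc (0:ℝ) 1 := ⟨hθ0, hθ1.le⟩
  set c : ℝ := d + 2 with hc
  set M : ℝ := c + 2 * c / θ with hM
  have hd : (0:ℝ) ≤ d := Nat.cast_nonneg d
  refine ⟨(8 * (2:ℝ)^M)^d, by positivity, ?_⟩
  intro k hk
  set σ := 2 * k with hσ
  have hσ1 : 1 ≤ σ := by omega
  set t : ℝ := (σ + 1)/θ with ht
  have hθt : θ * t = σ + 1 := by rw [ht]; field_simp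
  have htσ : (σ:ℝ) + 1 ≤ t := by
    rw [ht, le_div_iff₀ hθ0]
    nlinarith [show (0:ℝ) ≤ σ from Nat.cast_nonneg σ]
  have hk' : (k:ℝ) ≤ t := by
    have : (σ:ℝ) = 2 * k := by rw [hσ]; push_cast; rfl
    have hk0 : (0:ℝ) ≤ k := Nat.cast_nonneg k
    linarith
  refine ⟨t, hk', ?_⟩
  have ht0 : 0 < t := by
    have : (0:ℝ) ≤ σ := Nat.cast_nonneg σ
    linarith
  set n := ⌈t⌉₊ + d with hn
  have hnlo : t + d ≤ n := by
    rw [hn]; push_cast; linarith [Nat.le_ceil t]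
  have hnhi : (n:ℝ) < t + d + 1 := by
    rw [hn]; push_cast
    linarith [Nat.ceil_lt_add_one ht0.le]
  have hσn : σ + 1 ≤ n := by
    have : ((σ + 1 : ℕ):ℝ) ≤ n := by push_cast; linarith
    exact_mod_cast this
  obtain ⟨hmem, T, hT1, hT2⟩ := EE_sharpL h hσ1 (by rw [hσ]; exact even_two_mul k) hσn
  refine ⟨WithLp.toLp 2 (fun _ => bp σ), fun i => hmem, ?_⟩
  have hcmp := h.regL.cmp hθ (c := c) (t := t) hσ1 (show σ ≤ n by omega) (by
      rw [abs_le]; constructor <;> linarith) (by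
      rw [hθt, abs_le]; constructor <;> linarith)
  rw [abs_le] at hcmp
  have hconv : (8 * (2:ℝ)^M)^d * (2:ℝ)^(t * (d * φL θ)) = (8 * (2:ℝ)^M * (2:ℝ)^(t * φL θ))^d := by
    rw [mul_pow (8 * (2:ℝ)^M), ← Real.rpow_natCast ((2:ℝ)^(t * φL θ)), ← Real.rpow_mul (by norm_num)]
    congr 2
    ring
  rw [hconv]
  apply covN_le (ρ := (1/2)^(σ+1)) (a := (1/2)^n) (T := fun _ => T) _ (by positivity) _
    (fun i z hz hzx => hT1 z hz hzx)
  · intro i
    refine hT2.trans ?_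
    rw [mul_assoc, ← Real.rpow_add (by norm_num)]
    gcongr
    · norm_num
    · linarith [hcmp.2]
  · rw [hθt, half_pow_eq]
    push_cast
    exact le_refl _
  · rw [two_pow_mul]
    apply Real.rpow_le_rpow_of_exponent_le (by norm_num)
    linarith

/-- (4) sharpness of the upper bound -/
lemma est4 (h : JP 1 φL φA) (d : ℕ) {θ : ℝ} (hθ0 : 0 < θ) (hθ1 : θ < 1) :
    ∃ C : ℝ, 0 < C ∧ ∀ k : ℕ, 1 ≤ k → ∃ t : ℝ, (k:ℝ) ≤ t ∧ ∃ x ∈ FF d (EE φL φA),
      C * (2:ℝ)^(t * (d * φA θ)) ≤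
      (covN ((2:ℝ)^(-t)) (closedBall x ((2:ℝ)^(-(θ * t))) ∩ FF d (EE φL φA)) : ℝ) := by
  have hθ : θ ∈ Ioc (0:ℝ) 1 := ⟨hθ0, hθ1.le⟩
  set c : ℝ := d + 2 with hc
  set M : ℝ := c + 2 * c / θ + 2 with hM
  have hd : (0:ℝ) ≤ d := Nat.cast_nonneg d
  refine ⟨((2:ℝ)^(-M))^d, by positivity, ?_⟩
  intro k hk
  obtain ⟨N, hN⟩ := exists_nat_gt ((d/θ + 2)/(1/θ - 1) + d + 1)
  set σ := 2 * (k + N) + 1 with hσ
  have hσ1 : 1 ≤ σ := by omega
  have hσN : (σ:ℝ) = 2 * (k + N) + 1 := by rw [hσ]; push_cast; rfl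
  have hk0 : (0:ℝ) ≤ k := Nat.cast_nonneg k
  have hθ' : 0 < 1/θ - 1 := by
    rw [sub_pos, lt_div_iff₀ hθ0]; linarith
  have hq : 0 ≤ (d/θ + 2)/(1/θ - 1) := by positivity
  set t : ℝ := (σ + 1 - d)/θ with ht
  have hθt : θ * t = σ + 1 - d := by rw [ht]; field_simp
  have hbig : (σ:ℝ) + 1 + 2 ≤ t := by
    have h1 : (d/θ + 2)/(1/θ - 1) ≤ σ + 1 := by linarith
    rw [div_le_iff₀ hθ'] at h1
    have h2 : t = (σ+1) * (1/θ) - d/θ := by rw [ht]; ring
    rw [h2]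
    linarith
  refine ⟨t, by linarith, ?_⟩
  have ht0 : 0 < t := by linarith
  set n := ⌈t⌉₊ - 2 with hn
  have hceil : 2 ≤ ⌈t⌉₊ := by
    have h1 : (2:ℝ) ≤ ⌈t⌉₊ := by
      have := Nat.le_ceil t
      linarith
    exact_mod_cast h1
  have hn' : (n:ℝ) = ⌈t⌉₊ - 2 := by
    rw [hn, Nat.cast_sub hceil]; norm_num
  have hnlo : t - 2 ≤ n := by
    rw [hn']
    linarith [Nat.le_ceil t]
  have hnhi : (n:ℝ) + 1 < t := by
    rw [hn']
    linarith [Nat.ceil_lt_add_one ht0.le]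
  have hσn : σ + 1 ≤ n := by
    have : ((σ + 1 : ℕ):ℝ) ≤ n := by push_cast; linarith
    exact_mod_cast this
  obtain ⟨hmem, T, hT1, hT2, hT3⟩ := EE_sharpA h hσ1 (by rw [hσ, Nat.even_add_one]; simp) hσn
  refine ⟨WithLp.toLp 2 (fun _ => bp σ), fun i => hmem, ?_⟩
  have hcmp := h.regA.cmp hθ (c := c) (t := t) hσ1 (show σ ≤ n by omega) (by
      rw [abs_le]; constructor <;> linarith) (by
      rw [hθt, abs_le]; constructor <;> linarith)
  rw [abs_le] at hcmp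
  have hconv : ((2:ℝ)^(-M))^d * (2:ℝ)^(t * (d * φA θ)) = ((2:ℝ)^(-M) * (2:ℝ)^(t * φA θ))^d := by
    rw [mul_pow, ← Real.rpow_natCast ((2:ℝ)^(t * φA θ)), ← Real.rpow_mul (by norm_num)]
    congr 2
    ring
  rw [hconv]
  apply le_covN (ρ := (1/2)^(σ+1)) (T := fun _ => T) (by positivity) (by positivity) _
    (by positivity) (fun i z hz => hT1 z hz)
  · intro i z hz w hw hne
    refine lt_of_lt_of_le ?_ (hT2 z hz w hw hne)
    rw [half_pow_eq]
    calc 2 * (2:ℝ)^(-t) = (2:ℝ)^(1 - t) := by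
          rw [sub_eq_add_neg, Real.rpow_add (by norm_num), Real.rpow_one]
      _ < (2:ℝ)^(-(n:ℝ)) := by
          apply Real.rpow_lt_rpow_of_exponent_lt (by norm_num)
          linarith
  · intro i
    refine le_trans ?_ hT3
    rw [← Real.rpow_add (by norm_num)]
    apply Real.rpow_le_rpow_of_exponent_le (by norm_num)
    rw [hM]
    linarith [hcmp.1]
  · rw [two_pow_mul, hθt]
    apply Real.rpow_le_rpow_of_exponent_le (by norm_num)
    push_cast
    linarith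

/-! ### the spectra -/

lemma param {r : ℝ} (hr : 0 < r) (hr1 : r < 1) : ∃ t : ℝ, 0 < t ∧ r = (2:ℝ)^(-t) := by
  refine ⟨-Real.logb 2 r, ?_, ?_⟩
  · have := Real.logb_neg (b := 2) (by norm_num) hr hr1
    linarith
  · rw [neg_neg, Real.rpow_logb (by norm_num) (by norm_num) hr]

lemma param_pow (t θ : ℝ) : ((2:ℝ)^(-t))^θ = (2:ℝ)^(-(θ * t)) := by
  rw [← Real.rpow_mul (by norm_num)]
  congr 1; ring

lemma param_ratio (t θ s : ℝ) : (((2:ℝ)^(-t))^θ / (2:ℝ)^(-t))^s = (2:ℝ)^(t * ((1-θ) * s)) := by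
  rw [param_pow, ← Real.rpow_sub (by norm_num), ← Real.rpow_mul (by norm_num)]
  congr 1; ring

lemma exp_bound {a b A B : ℝ} (hA : 0 < A) (hB : 0 < B)
    (h : ∀ k : ℕ, 1 ≤ k → ∃ t : ℝ, (k:ℝ) ≤ t ∧ A * (2:ℝ)^(t * a) ≤ B * (2:ℝ)^(t * b)) : a ≤ b := by
  by_contra hab
  push Not at hab
  obtain ⟨k, hk⟩ := exists_nat_gt (max 1 ((Real.logb 2 (B/A))/(a - b)))
  have hk1 : (1:ℝ) < k := lt_of_le_of_lt (le_max_left _ _) hk
  have hk2 : (Real.logb 2 (B/A))/(a - b) < k := lt_of_le_of_lt (le_max_right _ _) hk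
  obtain ⟨t, ht, h1⟩ := h k (by exact_mod_cast hk1.le)
  have h2 : (2:ℝ)^(t * (a - b)) ≤ B / A := by
    rw [le_div_iff₀ hA, mul_sub, Real.rpow_sub (by norm_num), div_mul_eq_mul_div,
      div_le_iff₀ (by positivity), mul_comm]
    exact h1
  have h3 : t * (a - b) ≤ Real.logb 2 (B/A) := by
    rw [Real.le_logb_iff_rpow_le (by norm_num) (by positivity)]
    exact h2
  have h4 : 0 < a - b := by linarith
  rw [div_lt_iff₀ h4] at hk2
  nlinarith

lemma poly_exp (d : ℕ) {δ : ℝ} (hδ : 0 < δ) : ∃ C : ℝ, 0 < C ∧ ∀ t : ℝ, 0 < t →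
    (1 + t)^d ≤ C * (2:ℝ)^(t * δ) := by
  have hl : 0 < Real.log 2 := Real.log_pos (by norm_num)
  set a : ℝ := δ * Real.log 2 / (d + 1) with ha
  have ha0 : 0 < a := by positivity
  refine ⟨(1 + 1/a)^d, by positivity, ?_⟩
  intro t ht
  have h1 : 1 + t ≤ (1 + 1/a) * Real.exp (a * t) := by
    have h2 : a * t + 1 ≤ Real.exp (a * t) := Real.add_one_le_exp _
    have h3 : 1 + t ≤ (1 + 1/a) * (a * t + 1) := by
      have : (1 + 1/a) * (a * t + 1) = 1 + t + a * t + 1/a := by field_simp; ring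
      rw [this]
      have : 0 < 1/a := by positivity
      nlinarith [mul_pos ha0 ht]
    refine h3.trans ?_
    gcongr
  calc (1 + t)^d ≤ ((1 + 1/a) * Real.exp (a * t))^d := by gcongr
    _ = (1 + 1/a)^d * Real.exp (d * (a * t)) := by rw [mul_pow, ← Real.exp_nat_mul]
    _ ≤ (1 + 1/a)^d * (2:ℝ)^(t * δ) := by
        gcongr
        rw [Real.rpow_def_of_pos (by norm_num)]
        apply Real.exp_le_exp.2
        have h4 : d * a ≤ δ * Real.log 2 := by
          rw [ha, mul_div_assoc', div_le_iff₀ (by positivity)]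
          have : 0 < δ * Real.log 2 := by positivity
          nlinarith
        nlinarith

/-- the spectra of the product set -/
theorem spectra (h : JP 1 φL φA) (d : ℕ) {θ : ℝ} (hθ0 : 0 < θ) (hθ1 : θ < 1) :
    (1 - θ) * lowerSpec θ (FF d (EE φL φA)) = d * φL θ ∧
    (1 - θ) * assouadSpec θ (FF d (EE φL φA)) = d * φA θ := by
  have hθ : θ ∈ Ioc (0:ℝ) 1 := ⟨hθ0, hθ1.le⟩
  have h1θ : 0 < 1 - θ := by linarith
  have hd : (0:ℝ) ≤ d := Nat.cast_nonneg d
  constructor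
  · have hgr : IsGreatest {s : ℝ | 0 ≤ s ∧ ∃ C : ℝ, 0 < C ∧ ∀ r : ℝ, 0 < r → r < 1 →
        ∀ x ∈ FF d (EE φL φA), C * (r^θ / r)^s ≤
          (covN r (closedBall x (r^θ) ∩ FF d (EE φL φA)) : ℝ)} (d * φL θ / (1 - θ)) := by
      constructor
      · have := h.nonneg θ hθ
        refine ⟨by positivity, ?_⟩
        obtain ⟨C, hC, hC1⟩ := est1 h d hθ0 hθ1
        refine ⟨C, hC, ?_⟩
        intro r hr hr1 x hx
        obtain ⟨t, ht, rfl⟩ := param hr hr1
        rw [param_ratio, param_pow, mul_div_cancel₀ _ h1θ.ne']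
        exact hC1 t ht x hx
      · rintro s ⟨hs, C, hC, hC1⟩
        obtain ⟨B, hB, hB1⟩ := est3 h d hθ0 hθ1
        rw [le_div_iff₀ h1θ, mul_comm]
        apply exp_bound hC hB
        intro k hk
        obtain ⟨t, htk, x, hx, hx1⟩ := hB1 k hk
        refine ⟨t, htk, ?_⟩
        have hk1 : (1:ℝ) ≤ k := by exact_mod_cast hk
        have ht0 : 0 < t := by linarith
        have h2 := hC1 ((2:ℝ)^(-t)) (by positivity)
          (Real.rpow_lt_one_of_one_lt_of_neg (by norm_num) (by linarith)) x hx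
        rw [param_ratio, param_pow] at h2
        exact h2.trans hx1
    unfold lowerSpec
    rw [hgr.csSup_eq]
    field_simp
  · have hlow : ∀ s : ℝ, (∃ C : ℝ, 0 < C ∧ ∀ r : ℝ, 0 < r → r < 1 →
        ∀ x ∈ FF d (EE φL φA), (covN r (closedBall x (r^θ) ∩ FF d (EE φL φA)) : ℝ) ≤
          C * (r^θ / r)^s) → d * φA θ / (1 - θ) ≤ s := by
      rintro s ⟨C, hC, hC1⟩
      obtain ⟨B, hB, hB1⟩ := est4 h d hθ0 hθ1
      rw [div_le_iff₀ h1θ, mul_comm s]
      apply exp_bound hB hC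
      intro k hk
      obtain ⟨t, htk, x, hx, hx1⟩ := hB1 k hk
      refine ⟨t, htk, ?_⟩
      have hk1 : (1:ℝ) ≤ k := by exact_mod_cast hk
      have ht0 : 0 < t := by linarith
      have h2 := hC1 ((2:ℝ)^(-t)) (by positivity)
        (Real.rpow_lt_one_of_one_lt_of_neg (by norm_num) (by linarith)) x hx
      rw [param_ratio, param_pow] at h2
      exact hx1.trans h2
    have hnn : 0 ≤ φA θ := (h.nonneg θ hθ).trans (h.L_le_A hθ)
    have hup : ∀ ε : ℝ, 0 < ε → (0 ≤ d * φA θ / (1 - θ) + ε ∧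
        ∃ C : ℝ, 0 < C ∧ ∀ r : ℝ, 0 < r → r < 1 →
        ∀ x ∈ FF d (EE φL φA), (covN r (closedBall x (r^θ) ∩ FF d (EE φL φA)) : ℝ) ≤
          C * (r^θ / r)^(d * φA θ / (1 - θ) + ε)) := by
      intro ε hε
      refine ⟨by positivity, ?_⟩
      obtain ⟨C, hC, hC1⟩ := est2 h d hθ0 hθ1
      obtain ⟨C', hC', hC'1⟩ := poly_exp d (show 0 < (1 - θ) * ε by positivity)
      refine ⟨C^d * C', by positivity, ?_⟩
      intro r hr hr1 x hx
      obtain ⟨t, ht, rfl⟩ := param hr hr1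
      rw [param_ratio, param_pow]
      refine (hC1 t ht x hx).trans ?_
      have h2 : (1 - θ) * (d * φA θ / (1 - θ) + ε) = d * φA θ + (1 - θ) * ε := by
        field_simp
      rw [h2, mul_add t, Real.rpow_add (by norm_num), mul_pow]
      calc C^d * (1 + t)^d * (2:ℝ)^(t * (d * φA θ))
          ≤ C^d * (C' * (2:ℝ)^(t * ((1 - θ) * ε))) * (2:ℝ)^(t * (d * φA θ)) := by
            gcongr
            exact hC'1 t ht
        _ = _ := by ring
    have heq : assouadSpec θ (FF d (EE φL φA)) = d * φA θ / (1 - θ) := by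
      unfold assouadSpec
      apply le_antisymm
      · apply le_of_forall_pos_le_add
        intro ε hε
        apply csInf_le
        · exact ⟨0, fun s hs => hs.1⟩
        · exact hup ε hε
      · apply le_csInf
        · exact ⟨_, hup 1 one_pos⟩
        · rintro s ⟨_, hs⟩
          exact hlow s hs
    rw [heq]
    field_simp

end Q77.Sp
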